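import Pool.Agent.CBM.MatchE2

/-!
CB5. If `Delta0 = E2Star` then Myhill's theorem holds for `Delta0`. PROOF SKETCH. `N = cb f g` is an
injection that changes the parity (`cb_inj`, `cb_par`, `cb_dfun`). Its bound is an `MvPolynomial (Fin 1) ℕ`,
turn it into `P0 : Polynomial ℕ` with `N v ≤ P0.eval v` (see `hex` in
Pool/Agent/Results/MP_a56640_lc/RationalOrbits.lean), `P = P0 + X + 1`, `q b = P.eval b`: monotone
(coefficients in `ℕ`), `b < q b`, `N v < q b` for `v < b`. `M = MM N q` is an involution that changes the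
parity (`MM_spec`). Define `h a = M (2 a) / 2`, `h' b = M (2 b + 1) / 2`; `M (2 a)` is odd, so
`M (2 a) = 2 h a + 1`, and so on; they are inverse to each other. `M ∈ E2`, hence `h, h' ∈ E2`
(`E2.div`), and by `H` their graphs are `Delta0` (the graph `w 0 = h (w 1)` is in `E2Star` by
`E2Star.eqFun`), and they are polynomially bounded (`E2.bounded`). `A, B`: put
`S v = if v % 2 = 0 then v / 2 ∈ A else v / 2 ∈ B`; by hypothesis `S (N v) ↔ S v`, hence
`S (N^[t] v) ↔ S v`, hence `S (M v) ↔ S v` by the third clause of `MM_spec`.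
-/

set_option autoImplicit false

namespace Pool.Agent.CBM

open Pool.Agent.Grz

theorem e2_dfun (H : ∀ (k : ℕ) (R : (Fin k → ℕ) → Prop), E2Star k R → Delta0 k R)
    {n : ℕ} {f : (Fin n → ℕ) → ℕ} (hf : E2 n f) : DFun n f :=
  ⟨H _ _ (E2Star.eqFun (E2.proj 0) hf.weak), hf.bounded⟩

/-- A polynomial with coefficients in `ℕ` is monotone. -/
private theorem peval_mono (P : Polynomial ℕ) : Monotone (fun b : ℕ => P.eval b) := by
  intro a b hab
  induction P using Polynomial.induction_on' with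
  | add p q hp hq =>
    simp only [Polynomial.eval_add]
    exact Nat.add_le_add hp hq
  | monomial n c =>
    simp only [Polynomial.eval_monomial]
    exact Nat.mul_le_mul_left _ (Nat.pow_le_pow_left hab n)

/-- A bound of a function of one variable as a polynomial in one variable. -/
private theorem exists_bound {F : ℕ → ℕ} (hF : DFun 1 (fun v => F (v 0))) :
    ∃ P : Polynomial ℕ, (∀ b, b < P.eval b) ∧ ∀ b v, v < b → F v < P.eval b := by
  obtain ⟨p, hp⟩ := hF.bound
  have hex : ∃ P' : Polynomial ℕ, ∀ x : ℕ, P'.eval x = MvPolynomial.eval ![x] p := by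
    clear hp
    induction p using MvPolynomial.induction_on with
    | C a => exact ⟨Polynomial.C a, fun x => by simp⟩
    | add p q hp hq =>
      obtain ⟨p', hp'⟩ := hp
      obtain ⟨q', hq'⟩ := hq
      exact ⟨p' + q', fun x => by simp [hp', hq']⟩
    | mul_X p i hp =>
      obtain ⟨p', hp'⟩ := hp
      refine ⟨p' * Polynomial.X, fun x => ?_⟩
      have : i = 0 := Subsingleton.elim _ _
      simp [hp', this]
  obtain ⟨P', hP'⟩ := hex
  refine ⟨P' + Polynomial.X + 1, fun b => ?_, fun b v hv => ?_⟩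
  · simp only [Polynomial.eval_add, Polynomial.eval_X, Polynomial.eval_one]
    omega
  · have h1 : F v ≤ P'.eval v := by
      rw [hP']
      exact hp ![v]
    have h2 : P'.eval v ≤ P'.eval b := peval_mono P' hv.le
    simp only [Polynomial.eval_add, Polynomial.eval_X, Polynomial.eval_one]
    omega

theorem myhill_of_eq (H : ∀ (k : ℕ) (R : (Fin k → ℕ) → Prop), E2Star k R → Delta0 k R)
    {f g : ℕ → ℕ} (hf : DInj f) (hg : DInj g) :
    ∃ h : ℕ ≃ ℕ, DFun 1 (fun v => h (v 0)) ∧ DFun 1 (fun v => h.symm (v 0)) ∧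
      ∀ A B : Set ℕ, (∀ x, x ∈ A ↔ f x ∈ B) → (∀ x, x ∈ B ↔ g x ∈ A) →
        ∀ x, x ∈ A ↔ h x ∈ B := by
  classical
  obtain ⟨P, hP, hNq⟩ := exists_bound (cb_dfun hf.2 hg.2)
  have hinj := cb_inj hf.1 hg.1
  have hpar := cb_par f g
  have hE2 := MM_e2 hinj (cb_dfun hf.2 hg.2) P hP
  have hspec := MM_spec hinj hpar hP (peval_mono P) hNq
  generalize hM : MM (cb f g) (fun b => P.eval b) = M at hE2 hspec
  have hinv : ∀ v, M (M v) = v := fun v => (hspec v).1
  have hodd : ∀ a, M (2 * a) = 2 * (M (2 * a) / 2) + 1 := by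
    intro a
    have := (hspec (2 * a)).2.1
    omega
  have heven : ∀ b, M (2 * b + 1) = 2 * (M (2 * b + 1) / 2) := by
    intro b
    have := (hspec (2 * b + 1)).2.1
    omega
  have hl : ∀ a, M (2 * (M (2 * a) / 2) + 1) / 2 = a := by
    intro a
    rw [← hodd a, hinv]
    omega
  have hr : ∀ b, M (2 * (M (2 * b + 1) / 2)) / 2 = b := by
    intro b
    rw [← heven b, hinv]
    omega
  refine ⟨⟨fun a => M (2 * a) / 2, fun b => M (2 * b + 1) / 2, hl, hr⟩, ?_, ?_, ?_⟩
  · refine e2_dfun H ?_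
    exact E2.div (E2.comp1 hE2 ((E2.const 2).mul (E2.proj 0))) (E2.const 2)
  · refine e2_dfun H ?_
    exact E2.div (E2.comp1 hE2 (((E2.const 2).mul (E2.proj 0)).add (E2.const 1))) (E2.const 2)
  · intro A B hA hB x
    let S : ℕ → Prop := fun v => if v % 2 = 0 then v / 2 ∈ A else v / 2 ∈ B
    have hSe : ∀ a, S (2 * a) ↔ a ∈ A := by
      intro a
      simp only [S]
      rw [if_pos (by omega), show 2 * a / 2 = a by omega]
    have hSo : ∀ b, S (2 * b + 1) ↔ b ∈ B := by
      intro b
      simp only [S]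
      rw [if_neg (by omega), show (2 * b + 1) / 2 = b by omega]
    have hSN : ∀ v, S (cb f g v) ↔ S v := by
      intro v
      rcases Nat.mod_two_eq_zero_or_one v with h | h
      · obtain ⟨a, rfl⟩ : ∃ a, v = 2 * a := ⟨v / 2, by omega⟩
        rw [cb_even, hSo, hSe]
        exact (hA a).symm
      · obtain ⟨b, rfl⟩ : ∃ b, v = 2 * b + 1 := ⟨v / 2, by omega⟩
        rw [cb_odd, hSe, hSo]
        exact (hB b).symm
    have hSt : ∀ t v, S ((cb f g)^[t] v) ↔ S v := by
      intro t
      induction t with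
      | zero => intro v; exact Iff.rfl
      | succ t ih =>
        intro v
        rw [Function.iterate_succ_apply, ih, hSN]
    have hSM : ∀ v, S (M v) ↔ S v := by
      intro v
      obtain ⟨s, t, hst⟩ := (hspec v).2.2.1
      rw [← hSt s (M v), hst, hSt]
    show x ∈ A ↔ M (2 * x) / 2 ∈ B
    rw [← hSe x, ← hSo (M (2 * x) / 2), ← hodd x, hSM]

end Pool.Agent.CBM
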