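import Pool.Agent.CBM.Root
import Pool.Agent.CBM.Upper

/-!
CB7. Banach's theorem from `Delta0 = E2Star`. PROOF SKETCH. `N = cb f g` is an increasing injection
(`cb_inj`, `cb_lt`). `C a`: the root of `2 a` is even. `C a ↔ rho N (2 a + 1) (2 a) = 0` (`rho_eq_root`),
which is in `E2Star` by `rho_e2Star` (compose with `2 a + 1`, `2 a`), hence `Delta0` by `H`.
`C x ↔ ¬ ∃ y, (¬ ∃ x', C x' ∧ f x' = y) ∧ g y = x`: if `g y = x` then `root (2 x) = root (2 y + 1)`
(`cb_odd`, `root_step`); if `y = f x'` then this is `root (2 x')`, so `C x ↔ C x'`; if `y` is not in the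
range of `f` then `2 y + 1` is its own root (`root_unique`, `n = 0`), odd, so `¬ C x`. If `x` is not in
the range of `g` then `2 x` is its own root and `C x`.
-/

set_option autoImplicit false

namespace Pool.Agent.CBM

open Pool.Agent.Grz

theorem banach_of_eq (H : ∀ (k : ℕ) (R : (Fin k → ℕ) → Prop), E2Star k R → Delta0 k R)
    {f g : ℕ → ℕ} (hf : DInj f) (hg : DInj g) (hf' : ∀ x, x < f x) (hg' : ∀ x, x < g x) :
    ∃ C : ℕ → Prop, Delta0 1 (fun v => C (v 0)) ∧
      ∀ x, C x ↔ ¬ ∃ y, (¬ ∃ x', C x' ∧ f x' = y) ∧ g y = x := by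
  have hinj := cb_inj hf.1 hg.1
  have hlt := cb_lt hf' hg'
  have hN := cb_dfun hf.2 hg.2
  have hrho := rho_e2Star hinj hN
  refine ⟨fun a => root (cb f g) (2 * a) % 2 = 0, ?_, fun x => ?_⟩
  · apply H
    have h2 : E2 1 (fun v => 2 * v 0) := (E2.const 2).mul (E2.proj 0)
    have h3 : E2 1 (fun v => 2 * v 0 + 1) := h2.add (E2.const 1)
    have h4 : E2 1 (fun v => rho (cb f g) (2 * v 0 + 1) (2 * v 0)) := E2.comp2 hrho h3 h2
    refine (E2Star.eqFun h4 (E2.const 0)).of_iff fun v => ?_
    rw [rho_eq_root hinj hlt]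
  · constructor
    · rintro hx ⟨y, hy, rfl⟩
      change root (cb f g) (2 * g y) % 2 = 0 at hx
      rw [← cb_odd f g y, root_step hinj hlt] at hx
      by_cases h : ∃ x', f x' = y
      · obtain ⟨x', rfl⟩ := h
        refine hy ⟨x', ?_, rfl⟩
        show root (cb f g) (2 * x') % 2 = 0
        rw [← cb_even f g x', root_step hinj hlt] at hx
        exact hx
      · have h1 : root (cb f g) (2 * y + 1) = 2 * y + 1 := by
          refine root_unique hinj hlt (n := 0) (fun u hu => h ?_) rfl
          unfold cb at hu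
          split_ifs at hu with h2
          · exact ⟨u / 2, by omega⟩
          · omega
        omega
    · intro hx
      show root (cb f g) (2 * x) % 2 = 0
      by_cases h : ∃ y, g y = x
      · obtain ⟨y, rfl⟩ := h
        have h1 : ∃ x', root (cb f g) (2 * x') % 2 = 0 ∧ f x' = y := by
          by_contra hcon
          exact hx ⟨y, hcon, rfl⟩
        obtain ⟨x', h2, rfl⟩ := h1
        rw [← cb_odd f g (f x'), root_step hinj hlt, ← cb_even f g x', root_step hinj hlt]
        exact h2
      · have h1 : root (cb f g) (2 * x) = 2 * x := by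
          refine root_unique hinj hlt (n := 0) (fun u hu => h ?_) rfl
          unfold cb at hu
          split_ifs at hu with h2
          · omega
          · exact ⟨u / 2, by omega⟩
        omega

end Pool.Agent.CBM
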