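import Pool.Agent.CBM.Gadget

/-!
CB9. The chain through the last point of `s`. PROOF SKETCH. For `c ≤ z + 1`, `u ≤ z` let
`L c u = 2 * Nat.pair z (2 * (c * (z + 1) + u))`, `R c u = 2 * Nat.pair z (2 * (c * (z + 1) + u) + 1) + 1`
(vertices of `cb fG (gG π)`). Then `N (L c u) = R c u` for `u ≠ 2`, `N (R c u) = L (c + 1) (π z u)` for
`c ≤ z`. Claim, by induction on `c ≤ z + 1`: for `u ≤ z` there are `v₀`, `n` with
`N^[n] v₀ = R c u`, `v₀` not in the range of `N`, all points `N^[i] v₀`, `i ≤ n`, of the form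
`L c' u'`, `R c' u'`, and `v₀` odd iff `(π z)^[t] 2 = u` for some `t ≤ c`. PROOF: if `u = 2` take `v₀ = R c 2`,
`n = 0` (`R c 2` is not in the range of `N`: its preimage would be even, a value `fG x = Nat.pair z w` with
odd `w = 2 (c (z+1) + 2) + 1 < W z`, so by the definition of `FG` the argument is `w - 1`, but then
`u = 2` excludes it); `t = 0`. If `u ≠ 2` and `c = 0`: `v₀ = L 0 u`, `n = 1` (not in the range: values
of `GG z` below `W z` are `≥ 2 (z + 1)`), even; and `(π z)^[0] 2 = 2 ≠ u`. If `u ≠ 2` and `c ≥ 1`: `u = π z u'`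
for some `u' ≤ z` (`π z` is bijective on `[0,z]`: injective and finite), `R c u = N (L c u) =
N (N (R (c-1) u'))`, induction; `(π z)^[t] 2 = u' ↔ (π z)^[t+1] 2 = u` and `t = 0` is impossible. At `c = z + 1`
use `Reach.bounded`: if `u` is reached at all then for some `t ≤ z`.
Tail: `N (R (z+1) s) = 2 * Nat.pair z (W z ^ 2 + 1 + (2 * ((z+1)*(z+1) + s) + 1))`, and then every step is
`w ↦ (w + 2)^2` on the second component (`w ≥ W z`), changing sides.
-/

set_option autoImplicit false

namespace Pool.Agent.CBM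

open Pool.Agent.Grz

/-- The code of the last point of `s`. -/
def last (z s : ℕ) : ℕ := 2 * ((z + 1) * (z + 1) + s) + 1

/-- The vertex of the last point of `s` (on the right). -/
def lastV (z s : ℕ) : ℕ := 2 * Nat.pair z (last z s) + 1

/-- The points of the tail after the last point of `s`. -/
def tail (z s j : ℕ) : ℕ := Nat.pair z ((fun w => (w + 2) ^ 2)^[j] (W z ^ 2 + 1 + last z s))

private theorem ch_pos (z : ℕ) : 0 < W z := by
  unfold W
  positivity

private theorem ch_lt {z c u : ℕ} (hc : c ≤ z + 1) (hu : u ≤ z) :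
    2 * (c * (z + 1) + u) + 1 < W z := by
  unfold W
  have h1 : c * (z + 1) ≤ (z + 1) * (z + 1) := Nat.mul_le_mul_right _ hc
  have h2 : (z + 2) * (z + 1) = (z + 1) * (z + 1) + (z + 1) := by ring
  omega

private theorem ch_div {z c u : ℕ} (hu : u ≤ z) : (c * (z + 1) + u) / (z + 1) = c := by
  rw [Nat.add_comm, Nat.add_mul_div_right _ _ (Nat.succ_pos z), Nat.div_eq_of_lt (by omega),
    Nat.zero_add]

private theorem ch_mod {z c u : ℕ} (hu : u ≤ z) : (c * (z + 1) + u) % (z + 1) = u := by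
  rw [Nat.add_comm, Nat.add_mul_mod_self_right, Nat.mod_eq_of_lt (by omega)]

/-- the points on the left -/
private def Lp (z c u : ℕ) : ℕ := 2 * Nat.pair z (2 * (c * (z + 1) + u))

/-- the points on the right -/
private def Rp (z c u : ℕ) : ℕ := 2 * Nat.pair z (2 * (c * (z + 1) + u) + 1) + 1

private theorem N_L (π : ℕ → ℕ → ℕ) {z c u : ℕ} (hc : c ≤ z + 1) (hu : u ≤ z) (h2 : u ≠ 2) :
    cb fG (gG π) (Lp z c u) = Rp z c u := by
  unfold Lp Rp
  rw [cb_even, fG, Nat.unpair_pair]
  have h3 := ch_lt hc hu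
  have h4 : FG z (2 * (c * (z + 1) + u)) = 2 * (c * (z + 1) + u) + 1 := by
    unfold FG
    rw [if_neg (by omega), if_pos]
    constructor
    · omega
    · rw [show 2 * (c * (z + 1) + u) / 2 = c * (z + 1) + u by omega, ch_mod hu]
      exact h2
  rw [h4]

private theorem N_R (π : ℕ → ℕ → ℕ) {z c u : ℕ} (hc : c ≤ z) (hu : u ≤ z) :
    cb fG (gG π) (Rp z c u) = Lp z (c + 1) (π z u) := by
  unfold Lp Rp
  rw [cb_odd, gG, Nat.unpair_pair]
  have h3 := ch_lt (show c ≤ z + 1 by omega) hu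
  have h5 : (2 * (c * (z + 1) + u) + 1) / 2 = c * (z + 1) + u := by omega
  have h4 : GG π z (2 * (c * (z + 1) + u) + 1) = 2 * ((c + 1) * (z + 1) + π z u) := by
    unfold GG
    rw [if_neg (by omega), h5, ch_div hu, ch_mod hu, if_pos]
    constructor
    · omega
    · omega
  rw [h4]

/-- Points with small codes. -/
private def Good (z x : ℕ) : Prop := (x / 2).unpair.1 = z ∧ (x / 2).unpair.2 < W z

private theorem good_L {z c u : ℕ} (hc : c ≤ z + 1) (hu : u ≤ z) : Good z (Lp z c u) := by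
  have h3 := ch_lt hc hu
  unfold Good Lp
  rw [Nat.mul_div_cancel_left _ (by norm_num), Nat.unpair_pair]
  constructor
  · rfl
  · show 2 * (c * (z + 1) + u) < W z
    omega

private theorem good_R {z c u : ℕ} (hc : c ≤ z + 1) (hu : u ≤ z) : Good z (Rp z c u) := by
  have h3 := ch_lt hc hu
  unfold Good Rp
  have h4 : (2 * Nat.pair z (2 * (c * (z + 1) + u) + 1) + 1) / 2 =
      Nat.pair z (2 * (c * (z + 1) + u) + 1) := by omega
  rw [h4, Nat.unpair_pair]
  exact ⟨rfl, h3⟩

private theorem sq_ge (w : ℕ) : w + 2 ≤ (w + 2) ^ 2 := by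
  nlinarith

private theorem range_R (π : ℕ → ℕ → ℕ) {z c : ℕ} (hz : 2 ≤ z) (hc : c ≤ z + 1) (v : ℕ) :
    cb fG (gG π) v ≠ Rp z c 2 := by
  intro h
  have hpar := cb_par fG (gG π) v
  rw [h] at hpar
  have hv : v % 2 = 0 := by
    unfold Rp at hpar
    omega
  obtain ⟨a, rfl⟩ : ∃ a, v = 2 * a := ⟨v / 2, by omega⟩
  rw [cb_even] at h
  unfold Rp at h
  have h1 : fG a = Nat.pair z (2 * (c * (z + 1) + 2) + 1) := by omega
  unfold fG at h1
  obtain ⟨h2, h3⟩ := Nat.pair_eq_pair.1 h1
  rw [h2] at h3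
  have h4 := ch_lt hc hz
  unfold FG at h3
  split_ifs at h3 with h5 h6
  · have := sq_ge a.unpair.2
    omega
  · have h7 : a.unpair.2 / 2 = c * (z + 1) + 2 := by omega
    rw [h7, ch_mod hz] at h6
    exact h6.2 rfl
  · have := Nat.le_self_pow (n := 2) (by norm_num) (W z)
    omega

private theorem range_L (π : ℕ → ℕ → ℕ) {z u : ℕ} (hu : u ≤ z) (v : ℕ) :
    cb fG (gG π) v ≠ Lp z 0 u := by
  intro h
  have hpar := cb_par fG (gG π) v
  rw [h] at hpar
  have hv : v % 2 = 1 := by
    unfold Lp at hpar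
    omega
  obtain ⟨a, rfl⟩ : ∃ a, v = 2 * a + 1 := ⟨v / 2, by omega⟩
  rw [cb_odd] at h
  unfold Lp at h
  have h1 : gG π a = Nat.pair z (2 * (0 * (z + 1) + u)) := by omega
  unfold gG at h1
  obtain ⟨h2, h3⟩ := Nat.pair_eq_pair.1 h1
  rw [h2] at h3
  have h4 := ch_lt (Nat.zero_le (z + 1)) hu
  unfold GG at h3
  split_ifs at h3 with h5 h6
  · have := sq_ge a.unpair.2
    omega
  · have h7 : (a.unpair.2 / 2 / (z + 1) + 1) * (z + 1) =
        a.unpair.2 / 2 / (z + 1) * (z + 1) + (z + 1) := by ring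
    omega
  · have := Nat.le_self_pow (n := 2) (by norm_num) (W z)
    omega

private theorem iter_le {f : ℕ → ℕ} {z : ℕ} (hm : Set.MapsTo f (Set.Iic z) (Set.Iic z)) {x : ℕ}
    (hx : x ≤ z) (t : ℕ) : f^[t] x ≤ z := by
  induction t with
  | zero => exact hx
  | succ t ih =>
    rw [Function.iterate_succ_apply']
    exact hm ih

private theorem chain_aux {π : ℕ → ℕ → ℕ} (hm : ∀ z, Set.MapsTo (π z) (Set.Iic z) (Set.Iic z))
    (hi : ∀ z, Set.InjOn (π z) (Set.Iic z)) {z : ℕ} (hz : 2 ≤ z) (c : ℕ) (hc : c ≤ z + 1) :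
    ∀ u, u ≤ z → ∃ v₀ n, (∀ v, cb fG (gG π) v ≠ v₀) ∧ (cb fG (gG π))^[n] v₀ = Rp z c u ∧
      (∀ i, i ≤ n → Good z ((cb fG (gG π))^[i] v₀)) ∧
      (v₀ % 2 = 1 ↔ ∃ t, t ≤ c ∧ (π z)^[t] 2 = u) := by
  induction c with
  | zero =>
    intro u hu
    by_cases h2 : u = 2
    · subst h2
      refine ⟨Rp z 0 2, 0, range_R π hz hc, rfl, ?_, ?_⟩
      · intro i hi0
        obtain rfl : i = 0 := by omega
        exact good_R hc hu
      · refine ⟨fun _ => ⟨0, le_refl 0, rfl⟩, fun _ => ?_⟩
        unfold Rp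
        omega
    · refine ⟨Lp z 0 u, 1, range_L π hu, ?_, ?_, ?_⟩
      · rw [Function.iterate_one]
        exact N_L π hc hu h2
      · intro i hi1
        rcases (show i = 0 ∨ i = 1 by omega) with rfl | rfl
        · exact good_L hc hu
        · rw [Function.iterate_one, N_L π hc hu h2]
          exact good_R hc hu
      · constructor
        · intro h
          unfold Lp at h
          omega
        · rintro ⟨t, ht, htu⟩
          obtain rfl : t = 0 := by omega
          exact absurd htu.symm h2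
  | succ c ih =>
    intro u hu
    by_cases h2 : u = 2
    · subst h2
      refine ⟨Rp z (c + 1) 2, 0, range_R π hz hc, rfl, ?_, ?_⟩
      · intro i hi0
        obtain rfl : i = 0 := by omega
        exact good_R hc hu
      · refine ⟨fun _ => ⟨0, Nat.zero_le _, rfl⟩, fun _ => ?_⟩
        unfold Rp
        omega
    · obtain ⟨k, hk1, -, hk⟩ := exists_period (hm z) (hi z) hu
      obtain ⟨k', rfl⟩ : ∃ k', k = k' + 1 := ⟨k - 1, by omega⟩
      obtain ⟨u', hu'⟩ : ∃ u', u' = (π z)^[k'] u := ⟨_, rfl⟩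
      have hu'z : u' ≤ z := by
        rw [hu']
        exact iter_le (hm z) hu k'
      have hπu : π z u' = u := by
        rw [hu']
        exact (Function.iterate_succ_apply' (π z) k' u).symm.trans hk
      obtain ⟨v₀, n, h3, h4, h5, h6⟩ := ih (by omega) u' hu'z
      have h7 : (cb fG (gG π))^[n + 1] v₀ = Lp z (c + 1) u := by
        rw [Function.iterate_succ_apply', h4, N_R π (by omega) hu'z, hπu]
      have h8 : (cb fG (gG π))^[n + 2] v₀ = Rp z (c + 1) u := by
        rw [Function.iterate_succ_apply', h7, N_L π hc hu h2]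
      refine ⟨v₀, n + 2, h3, h8, ?_, ?_⟩
      · intro i hin
        rcases (show i ≤ n ∨ i = n + 1 ∨ i = n + 2 by omega) with h | rfl | rfl
        · exact h5 i h
        · rw [h7]
          exact good_L hc hu
        · rw [h8]
          exact good_R hc hu
      · rw [h6]
        constructor
        · rintro ⟨t, ht, htu⟩
          refine ⟨t + 1, by omega, ?_⟩
          rw [Function.iterate_succ_apply', htu, hπu]
        · rintro ⟨t, ht, htu⟩
          rcases t with _ | t
          · exact absurd htu.symm h2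
          · refine ⟨t, by omega, ?_⟩
            rw [Function.iterate_succ_apply', ← hπu] at htu
            exact hi z (iter_le (hm z) hz t) hu'z htu

theorem chain {π : ℕ → ℕ → ℕ} (hm : ∀ z, Set.MapsTo (π z) (Set.Iic z) (Set.Iic z))
    (hi : ∀ z, Set.InjOn (π z) (Set.Iic z)) {z s : ℕ} (hz : 2 ≤ z) (hs : s ≤ z) :
    ∃ v₀ n, (∀ v, cb fG (gG π) v ≠ v₀) ∧ (cb fG (gG π))^[n] v₀ = lastV z s ∧
      (∀ i, i ≤ n → ((cb fG (gG π))^[i] v₀ / 2).unpair.1 = z ∧
        ((cb fG (gG π))^[i] v₀ / 2).unpair.2 < W z) ∧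
      (v₀ % 2 = 1 ↔ Reach (π z) 2 s) := by
  obtain ⟨v₀, n, h1, h2, h3, h4⟩ := chain_aux hm hi hz (z + 1) le_rfl s hs
  refine ⟨v₀, n, h1, h2, h3, h4.trans ⟨?_, ?_⟩⟩
  · rintro ⟨t, -, ht⟩
    exact ⟨t, ht⟩
  · intro h
    obtain ⟨t, ht, hts⟩ := h.bounded (hm z) (hi z) hz
    exact ⟨t, by omega, hts⟩

private theorem last_lt {z s : ℕ} (hs : s ≤ z) : last z s < W z := ch_lt le_rfl hs

private theorem iter_ge (j a : ℕ) : a ^ 2 ^ j ≤ (fun w => (w + 2) ^ 2)^[j] a := by
  induction j with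
  | zero => simp
  | succ j ih =>
    rw [Function.iterate_succ_apply', pow_succ, pow_mul]
    exact Nat.pow_le_pow_left (by omega) 2

private theorem iter_ge' (j a : ℕ) : a ≤ (fun w => (w + 2) ^ 2)^[j] a := by
  induction j with
  | zero => simp
  | succ j ih =>
    rw [Function.iterate_succ_apply']
    refine ih.trans ?_
    have := sq_ge ((fun w => (w + 2) ^ 2)^[j] a)
    show _ ≤ ((fun w => (w + 2) ^ 2)^[j] a + 2) ^ 2
    omega

private theorem W_le_start (z s : ℕ) : W z ≤ W z ^ 2 + 1 + last z s := by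
  have := Nat.le_self_pow (n := 2) (by norm_num) (W z)
  omega

private theorem W_le_iter (z s j : ℕ) :
    W z ≤ (fun w => (w + 2) ^ 2)^[j] (W z ^ 2 + 1 + last z s) :=
  (W_le_start z s).trans (iter_ge' j _)

theorem tail_spec (π : ℕ → ℕ → ℕ) {z s : ℕ} (hs : s ≤ z) (j : ℕ) :
    (cb fG (gG π))^[j + 1] (lastV z s) = 2 * tail z s j + j % 2 := by
  induction j with
  | zero =>
    rw [Nat.zero_add, Function.iterate_one]
    unfold lastV
    rw [cb_odd, gG, Nat.unpair_pair]
    have h1 := last_lt hs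
    have h2 : GG π z (last z s) = W z ^ 2 + 1 + last z s := by
      unfold GG
      rw [if_neg (by omega), if_neg]
      rintro ⟨-, h3⟩
      have h4 : last z s / 2 = (z + 1) * (z + 1) + s := by
        unfold last
        omega
      rw [h4, ch_div hs] at h3
      omega
    show 2 * Nat.pair z (GG π z (last z s)) = 2 * tail z s 0 + 0
    rw [h2]
    rfl
  | succ j ih =>
    rw [Function.iterate_succ_apply', ih]
    have h1 := W_le_iter z s j
    have h2 : tail z s (j + 1) =
        Nat.pair z (((fun w => (w + 2) ^ 2)^[j] (W z ^ 2 + 1 + last z s) + 2) ^ 2) := by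
      unfold tail
      rw [Function.iterate_succ_apply']
    rcases Nat.mod_two_eq_zero_or_one j with h | h
    · rw [h, Nat.add_zero, cb_even, h2, show (j + 1) % 2 = 1 by omega]
      unfold tail
      rw [fG, Nat.unpair_pair]
      show 2 * Nat.pair z (FG z _) + 1 = _
      unfold FG
      rw [if_pos h1]
    · rw [h, cb_odd, h2, show (j + 1) % 2 = 0 by omega]
      unfold tail
      rw [gG, Nat.unpair_pair]
      show 2 * Nat.pair z (GG π z _) = _
      unfold GG
      rw [if_pos h1]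
      rfl

theorem tail_comp (z s j : ℕ) : (tail z s j).unpair.1 = z ∧ W z ≤ (tail z s j).unpair.2 := by
  unfold tail
  rw [Nat.unpair_pair]
  exact ⟨rfl, W_le_iter z s j⟩

/-- The points of the tail grow fast. -/
theorem tail_large {z s k j x : ℕ} (hj : k ≤ j) (hx1 : x.unpair.1 = z) (hx2 : x.unpair.2 < W z) :
    (x + 2) ^ k < tail z s j := by
  have hzW : z + 1 ≤ W z := by
    unfold W
    nlinarith
  -- the bound for `x`
  have h1 : x + 2 ≤ W z ^ 2 + 1 := by
    have h2 : x < (max x.unpair.1 x.unpair.2 + 1) ^ 2 := by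
      have := Nat.pair_lt_max_add_one_sq x.unpair.1 x.unpair.2
      rwa [Nat.pair_unpair] at this
    have h3 : max x.unpair.1 x.unpair.2 + 1 ≤ W z := by
      rw [hx1]
      have := max_lt (show z < W z by omega) hx2
      omega
    have h4 := Nat.pow_le_pow_left h3 2
    omega
  obtain ⟨A, hA⟩ : ∃ A, A = W z ^ 2 + 1 + last z s := ⟨_, rfl⟩
  have h5 : x + 2 ≤ A := by omega
  obtain ⟨w, hw⟩ : ∃ w, w = (fun w => (w + 2) ^ 2)^[j] (W z ^ 2 + 1 + last z s) := ⟨_, rfl⟩
  have h6 : z < w := by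
    have := W_le_iter z s j
    omega
  have h7 : tail z s j = w * w + z := by
    unfold tail
    rw [← hw, Nat.pair, if_pos h6]
  have h8 : A ^ 2 ^ j ≤ w := by
    rw [hw, hA]
    exact iter_ge j _
  have h9 : A ^ 2 ^ (j + 1) ≤ w * w := by
    rw [pow_succ, pow_mul, sq]
    exact Nat.mul_le_mul h8 h8
  have h10 : k < 2 ^ (j + 1) := by
    have := Nat.lt_two_pow_self (n := j + 1)
    omega
  have h11 : A ^ k < A ^ 2 ^ (j + 1) := Nat.pow_lt_pow_right (by omega) h10
  have h12 : (x + 2) ^ k ≤ A ^ k := Nat.pow_le_pow_left h5 k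
  omega

private theorem G_inj : Function.Injective (fun w : ℕ => (w + 2) ^ 2) := by
  intro a b h
  have h1 : (a + 2) ^ 2 = (b + 2) ^ 2 := h
  have := Nat.pow_left_injective (n := 2) (by norm_num) h1
  simpa using this

private theorem iter_tail (π : ℕ → ℕ → ℕ) {z s : ℕ} (hs : s ≤ z) (i : ℕ) :
    (cb fG (gG π))^[i] (2 * tail z s 0) = 2 * tail z s i + i % 2 := by
  have h1 : 2 * tail z s 0 = cb fG (gG π) (lastV z s) := by
    have := tail_spec π hs 0
    rw [Nat.zero_add, Function.iterate_one] at this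
    rw [this]
    rfl
  rw [h1, ← Function.iterate_succ_apply, tail_spec π hs i]

private theorem sep_aux {z s s' i j : ℕ} (hs : s ≤ z) (hij : i ≤ j)
    (h : (fun w => (w + 2) ^ 2)^[i] (W z ^ 2 + 1 + last z s) =
      (fun w => (w + 2) ^ 2)^[j] (W z ^ 2 + 1 + last z s')) : s = s' := by
  obtain ⟨d, rfl⟩ : ∃ d, j = i + d := ⟨j - i, by omega⟩
  rw [Function.iterate_add_apply] at h
  have h1 := G_inj.iterate i h
  rcases d with _ | d
  · have h2 : W z ^ 2 + 1 + last z s = W z ^ 2 + 1 + last z s' := h1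
    unfold last at h2
    omega
  · exfalso
    rw [Function.iterate_succ_apply] at h1
    have h2 := iter_ge' d ((W z ^ 2 + 1 + last z s' + 2) ^ 2)
    rw [← h1] at h2
    have h3 := last_lt hs
    have h4 := Nat.le_self_pow (n := 2) (by norm_num) (W z)
    obtain ⟨B, hB⟩ : ∃ B, B = W z ^ 2 + 1 + last z s' + 2 := ⟨_, rfl⟩
    rw [← hB] at h2
    have h5 : 3 * B ≤ B ^ 2 := by
      rw [sq]
      exact Nat.mul_le_mul_right B (by omega)
    omega

/-- Different first points of tails are on different chains. -/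
theorem tail_sep (π : ℕ → ℕ → ℕ) {z s z' s' i j : ℕ} (hs : s ≤ z) (hs' : s' ≤ z')
    (h : (cb fG (gG π))^[i] (2 * tail z s 0) = (cb fG (gG π))^[j] (2 * tail z' s' 0)) :
    z = z' ∧ s = s' := by
  rw [iter_tail π hs, iter_tail π hs'] at h
  have h1 : tail z s i = tail z' s' j := by omega
  unfold tail at h1
  obtain ⟨h2, h3⟩ := Nat.pair_eq_pair.1 h1
  subst h2
  refine ⟨rfl, ?_⟩
  rcases le_total i j with hij | hij
  · exact sep_aux hs hij h3
  · exact (sep_aux hs' hij h3.symm).symm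

end Pool.Agent.CBM
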