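import Mathlib
import Pool.Agent.Grz.Cycles
import Pool.Agent.Grz.Matrices
import Pool.Agent.GAvg.E2Tools

/-!
The Cantor-Bernstein graph of two injections; runs of an injection below a bound.
-/

set_option autoImplicit false

namespace Pool.Agent.CBM

open Pool.Agent.Grz

/-- `f` is an injection with a bounded-formula graph and of polynomial growth. -/
def DInj (f : ℕ → ℕ) : Prop := Function.Injective f ∧ DFun 1 (fun v => f (v 0))

/-- The Cantor-Bernstein graph of `f` and `g`: the number `2 a` is the point `a` on the left, the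
number `2 b + 1` is the point `b` on the right; `a` is mapped to `f a` and `b` to `g b`. -/
def cb (f g : ℕ → ℕ) (v : ℕ) : ℕ := if v % 2 = 0 then 2 * f (v / 2) + 1 else 2 * g (v / 2)

theorem cb_even (f g : ℕ → ℕ) (a : ℕ) : cb f g (2 * a) = 2 * f a + 1 := by
  unfold cb
  rw [if_pos (by omega), show 2 * a / 2 = a by omega]

theorem cb_odd (f g : ℕ → ℕ) (b : ℕ) : cb f g (2 * b + 1) = 2 * g b := by
  unfold cb
  rw [if_neg (by omega), show (2 * b + 1) / 2 = b by omega]

theorem cb_par (f g : ℕ → ℕ) (v : ℕ) : cb f g v % 2 ≠ v % 2 := by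
  unfold cb
  split_ifs <;> omega

theorem cb_inj {f g : ℕ → ℕ} (hf : Function.Injective f) (hg : Function.Injective g) :
    Function.Injective (cb f g) := by
  intro u v h
  have hu := cb_par f g u
  have hv := cb_par f g v
  unfold cb at h hu hv
  split_ifs at h hu hv with h1 h2 h2
  · have := hf (show f (u / 2) = f (v / 2) by omega)
    omega
  · omega
  · omega
  · have := hg (show g (u / 2) = g (v / 2) by omega)
    omega

theorem cb_dfun {f g : ℕ → ℕ} (hf : DFun 1 (fun v => f (v 0))) (hg : DFun 1 (fun v => g (v 0))) :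
    DFun 1 (fun v => cb f g (v 0)) := by
  unfold cb
  have h2 : DFun 1 (fun v => v 0 % 2) := DFun.mod2 (DFun.proj 0)
  have h3 : DFun 1 (fun v => v 0 / 2) := DFun.half (DFun.proj 0)
  refine DFun.ite (Delta0.eqFun h2 (DFun.const 0)) ?_ ?_
  · exact ((DFun.const 2).mul (DFun.comp1 hf h3)).add (DFun.const 1)
  · exact (DFun.const 2).mul (DFun.comp1 hg h3)

theorem cb_lt {f g : ℕ → ℕ} (hf : ∀ x, x < f x) (hg : ∀ x, x < g x) (v : ℕ) : v < cb f g v := by
  unfold cb
  have h1 := hf (v / 2)
  have h2 := hg (v / 2)
  split_ifs <;> omega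

/-! ### Runs of `N` below a bound `b` -/

open Classical in
/-- The point `u < b` with `N u = v`, or `v` if there is none. -/
noncomputable def pre (N : ℕ → ℕ) (b v : ℕ) : ℕ :=
  if h : ∃ u, u < b ∧ N u = v then Nat.find h else v

/-- The first point of the run of `v` below `b`. -/
noncomputable def start (N : ℕ → ℕ) (b v : ℕ) : ℕ := (pre N b)^[b] v

/-- The parity of the first point of the run of `v` below `b`; it is `0` if the run is a cycle. -/
noncomputable def rho (N : ℕ → ℕ) (b v : ℕ) : ℕ :=
  if pre N b (start N b v) = start N b v then start N b v % 2 else 0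

/-- One step of the run below `b`. -/
def suc (N : ℕ → ℕ) (b v : ℕ) : ℕ := if N v < b then N v else v

/-- The last point of the run of `v` below `b`. -/
def fin (N : ℕ → ℕ) (b v : ℕ) : ℕ := (suc N b)^[b] v

end Pool.Agent.CBM
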