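import Pool.Agent.CBM.Defs

/-!
CB11. The net flow across a cut, and polynomial bounds.

`flow`: let `A = {i ≤ n | i ≡ n}`, `B = {i ≤ n | i ≢ n}` modulo `2`; `#A = #B + (n + 1) % 2`.
`σ` maps `{i ∈ A | σ i ≤ n}` bijectively to `{i ∈ B | σ i ≤ n}`; `{i ∈ A | n < σ i}` to
`{k | n < k, k ≢ n, σ k ≤ n} = {n + 1 + 2 j | j < J, σ (n + 1 + 2 j) ≤ n}`, and `{i ∈ B | n < σ i}` to
`{n + 2 + 2 j | j < J, σ (n + 2 + 2 j) ≤ n}`.
`pow_bound`: a polynomial in one variable with natural coefficients is at most `(x + 2) ^ k` for some `k`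
(induction: sums `(x+2)^a + (x+2)^b ≤ (x+2)^(a+b+1)`).
-/

set_option autoImplicit false

namespace Pool.Agent.CBM

open Pool.Agent.Grz

private theorem flow_card (n : ℕ) :
    ((Finset.range (n + 1)).filter (fun i => i % 2 = n % 2)).card =
      ((Finset.range (n + 1)).filter (fun i => i % 2 ≠ n % 2)).card + (n + 1) % 2 := by
  induction n with
  | zero => decide
  | succ n ih =>
    have h1 : ((Finset.range (n + 1 + 1)).filter (fun i => i % 2 = (n + 1) % 2)) =
        insert (n + 1) ((Finset.range (n + 1)).filter (fun i => i % 2 ≠ n % 2)) := by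
      ext i
      simp only [Finset.mem_filter, Finset.mem_range, Finset.mem_insert]
      omega
    have h2 : ((Finset.range (n + 1 + 1)).filter (fun i => i % 2 ≠ (n + 1) % 2)) =
        ((Finset.range (n + 1)).filter (fun i => i % 2 = n % 2)) := by
      ext i
      simp only [Finset.mem_filter, Finset.mem_range]
      omega
    rw [h1, h2, Finset.card_insert_of_notMem (by simp), ih]
    omega

theorem flow {σ : ℕ → ℕ} (hσ : ∀ i, σ (σ i) = i) (hp : ∀ i, σ i % 2 ≠ i % 2) {n J : ℕ}
    (hJ : ∀ i, n + 1 + 2 * J ≤ i → n < σ i) :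
    ((Finset.range J).filter (fun j => σ (n + 1 + 2 * j) ≤ n)).card =
      ((Finset.range J).filter (fun j => σ (n + 2 + 2 * j) ≤ n)).card + (n + 1) % 2 := by
  have hcard := flow_card n
  have hA := Finset.card_filter_add_card_filter_not
    (s := (Finset.range (n + 1)).filter (fun i => i % 2 = n % 2)) (p := fun i => σ i ≤ n)
  have hB := Finset.card_filter_add_card_filter_not
    (s := (Finset.range (n + 1)).filter (fun i => i % 2 ≠ n % 2)) (p := fun i => σ i ≤ n)
  have hAB : (((Finset.range (n + 1)).filter (fun i => i % 2 = n % 2)).filter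
      (fun i => σ i ≤ n)).card =
      (((Finset.range (n + 1)).filter (fun i => i % 2 ≠ n % 2)).filter (fun i => σ i ≤ n)).card := by
    refine Finset.card_bij' (fun i _ => σ i) (fun i _ => σ i) ?_ ?_ ?_ ?_
    · intro i hi
      simp only [Finset.mem_filter, Finset.mem_range] at hi ⊢
      have := hp i
      rw [hσ]
      omega
    · intro i hi
      simp only [Finset.mem_filter, Finset.mem_range] at hi ⊢
      have := hp i
      rw [hσ]
      omega
    · intro i _; exact hσ i
    · intro i _; exact hσ i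
  have hA2 : (((Finset.range (n + 1)).filter (fun i => i % 2 = n % 2)).filter
      (fun i => ¬ σ i ≤ n)).card =
      ((Finset.range J).filter (fun j => σ (n + 1 + 2 * j) ≤ n)).card := by
    refine Finset.card_bij' (fun i _ => (σ i - (n + 1)) / 2) (fun j _ => σ (n + 1 + 2 * j))
      ?_ ?_ ?_ ?_
    · intro i hi
      simp only [Finset.mem_filter, Finset.mem_range] at hi ⊢
      have h1 := hp i
      have h2 : σ i < n + 1 + 2 * J := by
        by_contra h3
        have := hJ (σ i) (by omega)
        rw [hσ] at this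
        omega
      have h3 : n + 1 + 2 * ((σ i - (n + 1)) / 2) = σ i := by omega
      rw [h3, hσ]
      omega
    · intro j hj
      simp only [Finset.mem_filter, Finset.mem_range] at hj ⊢
      have h1 := hp (n + 1 + 2 * j)
      rw [hσ]
      omega
    · intro i hi
      simp only [Finset.mem_filter, Finset.mem_range] at hi
      have h1 := hp i
      have h3 : n + 1 + 2 * ((σ i - (n + 1)) / 2) = σ i := by omega
      simp only [h3, hσ]
    · intro j hj
      simp only [hσ]
      omega
  have hB2 : (((Finset.range (n + 1)).filter (fun i => i % 2 ≠ n % 2)).filter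
      (fun i => ¬ σ i ≤ n)).card =
      ((Finset.range J).filter (fun j => σ (n + 2 + 2 * j) ≤ n)).card := by
    refine Finset.card_bij' (fun i _ => (σ i - (n + 2)) / 2) (fun j _ => σ (n + 2 + 2 * j))
      ?_ ?_ ?_ ?_
    · intro i hi
      simp only [Finset.mem_filter, Finset.mem_range] at hi ⊢
      have h1 := hp i
      have h2 : σ i < n + 1 + 2 * J := by
        by_contra h3
        have := hJ (σ i) (by omega)
        rw [hσ] at this
        omega
      have h3 : n + 2 + 2 * ((σ i - (n + 2)) / 2) = σ i := by omega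
      rw [h3, hσ]
      omega
    · intro j hj
      simp only [Finset.mem_filter, Finset.mem_range] at hj ⊢
      have h1 := hp (n + 2 + 2 * j)
      rw [hσ]
      omega
    · intro i hi
      simp only [Finset.mem_filter, Finset.mem_range] at hi
      have h1 := hp i
      have h3 : n + 2 + 2 * ((σ i - (n + 2)) / 2) = σ i := by omega
      simp only [h3, hσ]
    · intro j hj
      simp only [hσ]
      omega
  omega

private theorem poly_bound (p : MvPolynomial (Fin 1) ℕ) :
    ∃ k, ∀ x : ℕ, MvPolynomial.eval (fun _ => x) p ≤ (x + 2) ^ k := by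
  induction p using MvPolynomial.induction_on with
  | C a =>
    refine ⟨a, fun x => ?_⟩
    rw [MvPolynomial.eval_C]
    calc a ≤ 2 ^ a := a.lt_two_pow_self.le
      _ ≤ (x + 2) ^ a := Nat.pow_le_pow_left (by omega) a
  | add p q hp hq =>
    obtain ⟨a, ha⟩ := hp
    obtain ⟨b, hb⟩ := hq
    refine ⟨a + b + 1, fun x => ?_⟩
    rw [map_add]
    have h1 : (x + 2) ^ a ≤ (x + 2) ^ (a + b) := Nat.pow_le_pow_right (by omega) (by omega)
    have h2 : (x + 2) ^ b ≤ (x + 2) ^ (a + b) := Nat.pow_le_pow_right (by omega) (by omega)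
    have h3 : (x + 2) ^ (a + b + 1) = (x + 2) ^ (a + b) * (x + 2) := pow_succ _ _
    have h4 : (x + 2) ^ (a + b) * 2 ≤ (x + 2) ^ (a + b) * (x + 2) :=
      Nat.mul_le_mul_left _ (by omega)
    have h5 := ha x
    have h6 := hb x
    omega
  | mul_X p i hp =>
    obtain ⟨a, ha⟩ := hp
    refine ⟨a + 1, fun x => ?_⟩
    rw [map_mul, MvPolynomial.eval_X, pow_succ]
    exact Nat.mul_le_mul (ha x) (by omega)

theorem pow_bound {h : ℕ → ℕ} (hh : DFun 1 (fun v => h (v 0))) : ∃ k, ∀ x, h x ≤ (x + 2) ^ k := by
  obtain ⟨p, hp⟩ := hh.bound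
  obtain ⟨k, hk⟩ := poly_bound p
  exact ⟨k, fun x => (hp fun _ => x).trans (hk x)⟩

end Pool.Agent.CBM
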