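import Pool.Agent.CBM.Defs

/-!
CB8. The gadget. Let `π z` be permutations of `[0,z]`. Numbers are pairs `(z, w)`. For `w < W z =
2 (z + 2) (z + 1)` write `w = 2 (c (z + 1) + u)` or `w = 2 (c (z + 1) + u) + 1`, `c ≤ z + 1`, `u ≤ z`:
point `(c, u)` on the left (even `w`) or on the right (odd `w`). `fG`: left `(c, u)` to right
`(c, u)` unless `u = 2`; `gG`: right `(c, u)` to left `(c + 1, π z u)` if `c < z + 1`. All other `w < W z`
are sent to `W² + 1 + w`, all `w ≥ W z` to `(w + 2)²`.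

PROOF SKETCH. `W ≥ 4`; `W² < W² + 1 + w < (W + 1)²` for `w < W`, so the three kinds of values of
`FG z` resp. `GG z` are disjoint: `< W`; `≥ (W + 2)²`; between `W²` and `(W + 1)²`. Injective on
each kind (for `GG`: `(c, u)` is determined by `c (z + 1) + u`, `π z` is injective on `[0,z]`).
Increasing: `2 ((c + 1)(z + 1) + u') > 2 (c (z + 1) + u) + 1`. `Nat.pair z` is increasing in the second
argument (`Nat.pair_lt_pair_right`). `DFun`: `DFun.ite`, `DFun.div`, `DFun.mod`, `DFun.pair`,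
`DFun.unpair1`, `DFun.unpair2`, `DFun.mul`, `DFun.comp2`.
-/

set_option autoImplicit false

namespace Pool.Agent.CBM

open Pool.Agent.Grz

/-- The number of codes of points. -/
def W (z : ℕ) : ℕ := 2 * ((z + 2) * (z + 1))

/-- The map from left to right. -/
def FG (z w : ℕ) : ℕ :=
  if W z ≤ w then (w + 2) ^ 2 else
    if w % 2 = 0 ∧ w / 2 % (z + 1) ≠ 2 then w + 1 else W z ^ 2 + 1 + w

/-- The map from right to left. -/
def GG (π : ℕ → ℕ → ℕ) (z w : ℕ) : ℕ :=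
  if W z ≤ w then (w + 2) ^ 2 else
    if w % 2 = 1 ∧ w / 2 / (z + 1) < z + 1 then
      2 * ((w / 2 / (z + 1) + 1) * (z + 1) + π z (w / 2 % (z + 1)))
    else W z ^ 2 + 1 + w

def fG (x : ℕ) : ℕ := Nat.pair x.unpair.1 (FG x.unpair.1 x.unpair.2)

def gG (π : ℕ → ℕ → ℕ) (x : ℕ) : ℕ := Nat.pair x.unpair.1 (GG π x.unpair.1 x.unpair.2)

theorem W_ge (z : ℕ) : 4 ≤ W z := by
  unfold W
  have : 2 * 1 ≤ (z + 2) * (z + 1) := Nat.mul_le_mul (by omega) (by omega)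
  omega

theorem W_even (z : ℕ) : W z % 2 = 0 := by
  unfold W
  omega

/-- The three kinds of values of `FG`. -/
theorem FG_cases (z w : ℕ) : (W z ≤ w ∧ FG z w = (w + 2) ^ 2) ∨
    (w + 1 < W z ∧ w % 2 = 0 ∧ w / 2 % (z + 1) ≠ 2 ∧ FG z w = w + 1) ∨
    (w < W z ∧ ¬ (w % 2 = 0 ∧ w / 2 % (z + 1) ≠ 2) ∧ FG z w = W z ^ 2 + 1 + w) := by
  have hW := W_even z
  unfold FG
  split_ifs with h1 h2
  · exact Or.inl ⟨h1, rfl⟩
  · exact Or.inr (Or.inl ⟨by omega, h2.1, h2.2, rfl⟩)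
  · exact Or.inr (Or.inr ⟨by omega, h2, rfl⟩)

/-- The three kinds of values of `GG`. -/
theorem GG_cases {π : ℕ → ℕ → ℕ} (hm : ∀ z, Set.MapsTo (π z) (Set.Iic z) (Set.Iic z)) (z w : ℕ) :
    (W z ≤ w ∧ GG π z w = (w + 2) ^ 2) ∨
    (w < W z ∧ w % 2 = 1 ∧ w / 2 / (z + 1) < z + 1 ∧ w < GG π z w ∧ GG π z w < W z ∧
      π z (w / 2 % (z + 1)) ≤ z ∧
      GG π z w = 2 * ((w / 2 / (z + 1) + 1) * (z + 1) + π z (w / 2 % (z + 1)))) ∨
    (w < W z ∧ ¬ (w % 2 = 1 ∧ w / 2 / (z + 1) < z + 1) ∧ GG π z w = W z ^ 2 + 1 + w) := by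
  have hW := W_even z
  unfold GG
  split_ifs with h1 h2
  · exact Or.inl ⟨h1, rfl⟩
  · have h3 : π z (w / 2 % (z + 1)) ≤ z :=
      hm z (Set.mem_Iic.2 (Nat.le_of_lt_succ (Nat.mod_lt _ (Nat.succ_pos z))))
    have h4 : w / 2 % (z + 1) < z + 1 := Nat.mod_lt _ (Nat.succ_pos z)
    have h5 := Nat.div_add_mod (w / 2) (z + 1)
    have h6 : (w / 2 / (z + 1) + 1 + 1) * (z + 1) ≤ (z + 2) * (z + 1) :=
      Nat.mul_le_mul (by omega) le_rfl
    have h7 : (w / 2 / (z + 1) + 1) * (z + 1) = (z + 1) * (w / 2 / (z + 1)) + (z + 1) := by ring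
    have h8 : (w / 2 / (z + 1) + 1 + 1) * (z + 1) =
        (w / 2 / (z + 1) + 1) * (z + 1) + (z + 1) := by ring
    refine Or.inr (Or.inl ⟨by omega, h2.1, h2.2, ?_, ?_, h3, rfl⟩)
    · omega
    · unfold W
      omega
  · exact Or.inr (Or.inr ⟨by omega, h2, rfl⟩)

theorem sq_bounds {a w : ℕ} (h : w < a) : a ^ 2 + 1 + w < (a + 2) ^ 2 := by
  nlinarith

theorem big_lt {a w : ℕ} (h : a ≤ w) : (a + 2) ^ 2 ≤ (w + 2) ^ 2 :=
  Nat.pow_le_pow_left (by omega) 2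

theorem self_lt_sq (a : ℕ) : a < (a + 2) ^ 2 := by nlinarith

theorem sq_inj {a b : ℕ} (h : (a + 2) ^ 2 = (b + 2) ^ 2) : a = b := by
  have := Nat.pow_left_injective (n := 2) (by norm_num) h
  omega

theorem FG_inj (z : ℕ) : Function.Injective (FG z) := by
  intro w w' h
  have e1 : W z ≤ W z ^ 2 := Nat.le_self_pow (by norm_num) _
  rcases FG_cases z w with ⟨a1, a2⟩ | ⟨a1, -, -, a2⟩ | ⟨a1, -, a2⟩ <;>
    rcases FG_cases z w' with ⟨b1, b2⟩ | ⟨b1, -, -, b2⟩ | ⟨b1, -, b2⟩ <;> rw [a2, b2] at h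
  · exact sq_inj h
  · have := big_lt a1
    have := self_lt_sq (W z)
    omega
  · have := big_lt a1
    have := sq_bounds b1
    omega
  · have := big_lt b1
    have := self_lt_sq (W z)
    omega
  · omega
  · omega
  · have := big_lt b1
    have := sq_bounds a1
    omega
  · omega
  · omega

theorem GG_inj {π : ℕ → ℕ → ℕ} (hm : ∀ z, Set.MapsTo (π z) (Set.Iic z) (Set.Iic z))
    (hi : ∀ z, Set.InjOn (π z) (Set.Iic z)) (z : ℕ) : Function.Injective (GG π z) := by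
  intro w w' h
  have e1 : W z ≤ W z ^ 2 := Nat.le_self_pow (by norm_num) _
  rcases GG_cases hm z w with ⟨a1, a2⟩ | ⟨a1, a3, a4, a5, a6, a7, a2⟩ | ⟨a1, -, a2⟩ <;>
    rcases GG_cases hm z w' with ⟨b1, b2⟩ | ⟨b1, b3, b4, b5, b6, b7, b2⟩ | ⟨b1, -, b2⟩
  · rw [a2, b2] at h
    exact sq_inj h
  · have := big_lt a1
    have := self_lt_sq (W z)
    omega
  · have := big_lt a1
    have := sq_bounds b1
    omega
  · have := big_lt b1
    have := self_lt_sq (W z)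
    omega
  · rw [a2, b2] at h
    have h1 : (w / 2 / (z + 1) + 1) * (z + 1) + π z (w / 2 % (z + 1)) =
        (w' / 2 / (z + 1) + 1) * (z + 1) + π z (w' / 2 % (z + 1)) := by omega
    have key : ∀ c u c' u', u ≤ z → u' ≤ z → c * (z + 1) + u = c' * (z + 1) + u' →
        c = c' ∧ u = u' := by
      intro c u c' u' hu hu' he
      have h3 : (c * (z + 1) + u) / (z + 1) = c := by
        rw [Nat.add_comm, Nat.add_mul_div_right _ _ (Nat.succ_pos z),
          Nat.div_eq_of_lt (by omega), Nat.zero_add]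
      have h4 : (c' * (z + 1) + u') / (z + 1) = c' := by
        rw [Nat.add_comm, Nat.add_mul_div_right _ _ (Nat.succ_pos z),
          Nat.div_eq_of_lt (by omega), Nat.zero_add]
      have h5 : c = c' := by rw [← h3, ← h4, he]
      subst h5
      exact ⟨rfl, by omega⟩
    obtain ⟨h2, h3⟩ := key _ _ _ _ a7 b7 h1
    have h4 : w / 2 / (z + 1) = w' / 2 / (z + 1) := by omega
    have h5 : w / 2 % (z + 1) = w' / 2 % (z + 1) :=
      hi z (Set.mem_Iic.2 (Nat.le_of_lt_succ (Nat.mod_lt _ (Nat.succ_pos z))))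
        (Set.mem_Iic.2 (Nat.le_of_lt_succ (Nat.mod_lt _ (Nat.succ_pos z)))) h3
    have h6 := Nat.div_add_mod (w / 2) (z + 1)
    have h7 := Nat.div_add_mod (w' / 2) (z + 1)
    rw [← h4, ← h5] at h7
    omega
  · omega
  · have := big_lt b1
    have := sq_bounds a1
    omega
  · omega
  · omega

theorem fG_inj : Function.Injective fG := by
  intro x y h
  unfold fG at h
  obtain ⟨h1, h2⟩ := Nat.pair_eq_pair.1 h
  rw [h1] at h2
  have h3 := FG_inj _ h2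
  rw [← Nat.pair_unpair x, ← Nat.pair_unpair y, h1, h3]

theorem gG_inj {π : ℕ → ℕ → ℕ} (hm : ∀ z, Set.MapsTo (π z) (Set.Iic z) (Set.Iic z))
    (hi : ∀ z, Set.InjOn (π z) (Set.Iic z)) : Function.Injective (gG π) := by
  intro x y h
  unfold gG at h
  obtain ⟨h1, h2⟩ := Nat.pair_eq_pair.1 h
  rw [h1] at h2
  have h3 := GG_inj hm hi _ h2
  rw [← Nat.pair_unpair x, ← Nat.pair_unpair y, h1, h3]

theorem W_dfun {n : ℕ} {f : (Fin n → ℕ) → ℕ} (hf : DFun n f) : DFun n (fun v => W (f v)) := by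
  unfold W
  exact (DFun.const 2).mul ((hf.add (DFun.const 2)).mul (hf.add (DFun.const 1)))

theorem sq_dfun {n : ℕ} {f : (Fin n → ℕ) → ℕ} (hf : DFun n f) : DFun n (fun v => f v ^ 2) := by
  have h : (fun v => f v ^ 2) = fun v => f v * f v := by
    funext v
    ring
  rw [h]
  exact hf.mul hf

theorem div2_dfun {n : ℕ} {f : (Fin n → ℕ) → ℕ} (hf : DFun n f) : DFun n (fun v => f v / 2) :=
  hf.div (DFun.const 1)

theorem mod2_dfun {n : ℕ} {f : (Fin n → ℕ) → ℕ} (hf : DFun n f) : DFun n (fun v => f v % 2) :=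
  hf.mod (DFun.const 1)

theorem FG_dfun : DFun 2 (fun v => FG (v 0) (v 1)) := by
  classical
  have h0 : DFun 2 (fun v => v 0) := DFun.proj 0
  have h1 : DFun 2 (fun v => v 1) := DFun.proj 1
  unfold FG
  refine DFun.ite (Delta0.leFun (W_dfun h0) h1) (sq_dfun (h1.add (DFun.const 2))) ?_
  refine DFun.ite ?_ (h1.add (DFun.const 1)) (((sq_dfun (W_dfun h0)).add (DFun.const 1)).add h1)
  exact (Delta0.eqFun (mod2_dfun h1) (DFun.const 0)).and
    (Delta0.eqFun ((div2_dfun h1).mod h0) (DFun.const 2)).not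

theorem GG_dfun {π : ℕ → ℕ → ℕ} (hπ : DFun 2 (fun v => π (v 0) (v 1))) :
    DFun 2 (fun v => GG π (v 0) (v 1)) := by
  classical
  have h0 : DFun 2 (fun v => v 0) := DFun.proj 0
  have h1 : DFun 2 (fun v => v 1) := DFun.proj 1
  unfold GG
  refine DFun.ite (Delta0.leFun (W_dfun h0) h1) (sq_dfun (h1.add (DFun.const 2))) ?_
  refine DFun.ite ?_ ?_ (((sq_dfun (W_dfun h0)).add (DFun.const 1)).add h1)
  · exact (Delta0.eqFun (mod2_dfun h1) (DFun.const 1)).and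
      (Delta0.ltFun ((div2_dfun h1).div h0) (h0.add (DFun.const 1)))
  · exact (DFun.const 2).mul (((((div2_dfun h1).div h0).add (DFun.const 1)).mul
      (h0.add (DFun.const 1))).add (DFun.comp2 hπ h0 ((div2_dfun h1).mod h0)))

theorem fG_dInj : DInj fG := by
  refine ⟨fG_inj, ?_⟩
  have h0 : DFun 1 (fun v => v 0) := DFun.proj 0
  unfold fG
  exact h0.unpair1.pair (DFun.comp2 FG_dfun h0.unpair1 h0.unpair2)

theorem pair_lt_of {x y : ℕ} (h : x.unpair.2 < y) : x < Nat.pair x.unpair.1 y := by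
  have := Nat.pair_lt_pair_right x.unpair.1 h
  rwa [Nat.pair_unpair] at this

theorem fG_lt (x : ℕ) : x < fG x := by
  unfold fG
  refine pair_lt_of ?_
  rcases FG_cases x.unpair.1 x.unpair.2 with ⟨a1, a2⟩ | ⟨a1, -, -, a2⟩ | ⟨a1, -, a2⟩ <;> rw [a2]
  · exact self_lt_sq _
  · omega
  · omega

theorem gG_dInj {π : ℕ → ℕ → ℕ} (hm : ∀ z, Set.MapsTo (π z) (Set.Iic z) (Set.Iic z))
    (hi : ∀ z, Set.InjOn (π z) (Set.Iic z)) (hπ : DFun 2 (fun v => π (v 0) (v 1))) :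
    DInj (gG π) := by
  refine ⟨gG_inj hm hi, ?_⟩
  have h0 : DFun 1 (fun v => v 0) := DFun.proj 0
  unfold gG
  exact h0.unpair1.pair (DFun.comp2 (GG_dfun hπ) h0.unpair1 h0.unpair2)

theorem gG_lt {π : ℕ → ℕ → ℕ} (hm : ∀ z, Set.MapsTo (π z) (Set.Iic z) (Set.Iic z)) (x : ℕ) :
    x < gG π x := by
  unfold gG
  refine pair_lt_of ?_
  rcases GG_cases hm x.unpair.1 x.unpair.2 with
    ⟨a1, a2⟩ | ⟨a1, a3, a4, a5, a6, a7, a2⟩ | ⟨a1, -, a2⟩
  · rw [a2]
    exact self_lt_sq _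
  · exact a5
  · rw [a2]
    omega

end Pool.Agent.CBM
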