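import Pool.Agent.CBM.Defs

/-!
CB10. There are countably many functions with bounded-formula graph; generic colourings.

`countable_delta0`: let `K 0 n` be the set of the predicates `eval v p = eval v q` and `eval v p ≤ eval v q`
(countable: image of `MvPolynomial (Fin n) ℕ × MvPolynomial (Fin n) ℕ`, which is countable), `K (i+1) n` the
union of `K i n`, `{¬ P | P ∈ K i n}`, `{P ∧ Q | P, Q ∈ K i n}`, `{∃ x ≤ eval v p, P (x, v) | P ∈ K i (n+1)}`:
countable by induction (`Set.Countable.image2`), increasing in `i`, and the union over `i` contains all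
`Delta0 n`. `countable_dfun`: a function is determined by its graph.
`exists_colouring`: Baire category theorem for `ℕ → Bool` (compact Hausdorff, so `BaireSpace`):
`U i = {χ | ∃ p ∈ D i, χ p.1 ≠ χ p.2}` is open; dense: `D i` is infinite, so `fst '' D i` or
`snd '' D i` is infinite; say infinitely many `c = p.1` (`p ∈ D i`); for a given `χ₀` the colourings
`Function.update χ₀ c (! χ₀ p.2)` are in `U i` (`p.2 ≠ c`) and tend to `χ₀`. Take a point of
`⋂ i, U i` (`dense_iInter_of_isOpen`). A direct construction by recursion is also fine.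
-/

set_option autoImplicit false

namespace Pool.Agent.CBM

open Pool.Agent.Grz

theorem countable_mvPolynomial (n : ℕ) : Countable (MvPolynomial (Fin n) ℕ) := by
  rw [← Cardinal.mk_le_aleph0_iff]
  refine MvPolynomial.cardinalMk_le_max.trans ?_
  refine max_le (max_le ?_ ?_) le_rfl
  · exact Cardinal.mk_le_aleph0
  · exact Cardinal.mk_le_aleph0

/-- The predicates given by formulas of depth at most `i`. -/
def lay : ℕ → (n : ℕ) → Set ((Fin n → ℕ) → Prop)
  | 0, n => (Set.range fun pq : MvPolynomial (Fin n) ℕ × MvPolynomial (Fin n) ℕ =>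
        fun v => MvPolynomial.eval v pq.1 = MvPolynomial.eval v pq.2) ∪
      Set.range fun pq : MvPolynomial (Fin n) ℕ × MvPolynomial (Fin n) ℕ =>
        fun v => MvPolynomial.eval v pq.1 ≤ MvPolynomial.eval v pq.2
  | i + 1, n => lay i n ∪ (fun P => fun v => ¬ P v) '' lay i n ∪
      Set.image2 (fun P Q => fun v => P v ∧ Q v) (lay i n) (lay i n) ∪
      Set.image2 (fun (p : MvPolynomial (Fin n) ℕ) (P : (Fin (n + 1) → ℕ) → Prop) =>
        fun v => ∃ x, x ≤ MvPolynomial.eval v p ∧ P (Matrix.vecCons x v)) Set.univ (lay i (n + 1))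

theorem lay_countable (i n : ℕ) : (lay i n).Countable := by
  induction i generalizing n with
  | zero =>
    have := countable_mvPolynomial n
    exact (Set.countable_range _).union (Set.countable_range _)
  | succ i ih =>
    have := countable_mvPolynomial n
    exact (((ih n).union ((ih n).image _)).union ((ih n).image2 (ih n) _)).union
      (Set.countable_univ.image2 (ih (n + 1)) _)

theorem lay_succ (i n : ℕ) : lay i n ⊆ lay (i + 1) n := fun _ h => Or.inl (Or.inl (Or.inl h))

theorem lay_mono {i j : ℕ} (h : i ≤ j) (n : ℕ) : lay i n ⊆ lay j n := by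
  induction j, h using Nat.le_induction with
  | base => exact le_rfl
  | succ j _ ih => exact ih.trans (lay_succ j n)

theorem exists_lay {n : ℕ} {P : (Fin n → ℕ) → Prop} (h : Delta0 n P) : ∃ i, P ∈ lay i n := by
  induction h with
  | eq p q => exact ⟨0, Or.inl ⟨(p, q), rfl⟩⟩
  | le p q => exact ⟨0, Or.inr ⟨(p, q), rfl⟩⟩
  | not _ ih =>
    obtain ⟨i, hi⟩ := ih
    exact ⟨i + 1, Or.inl (Or.inl (Or.inr ⟨_, hi, rfl⟩))⟩
  | and _ _ ih1 ih2 =>
    obtain ⟨i, hi⟩ := ih1
    obtain ⟨j, hj⟩ := ih2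
    exact ⟨max i j + 1, Or.inl (Or.inr ⟨_, lay_mono (le_max_left i j) _ hi, _,
      lay_mono (le_max_right i j) _ hj, rfl⟩)⟩
  | bex p _ ih =>
    obtain ⟨i, hi⟩ := ih
    exact ⟨i + 1, Or.inr ⟨p, Set.mem_univ _, _, hi, rfl⟩⟩

theorem countable_delta0 (n : ℕ) : {P : (Fin n → ℕ) → Prop | Delta0 n P}.Countable := by
  refine (Set.countable_iUnion fun i => lay_countable i n).mono fun P hP => ?_
  exact Set.mem_iUnion.2 (exists_lay hP)

theorem countable_dfun : {h : ℕ → ℕ | DFun 1 (fun v => h (v 0))}.Countable := by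
  refine Set.MapsTo.countable_of_injOn
    (f := fun h : ℕ → ℕ => fun w : Fin 2 → ℕ => w 0 = h (w 1)) (t := {P | Delta0 2 P}) ?_ ?_
    (countable_delta0 2)
  · intro h hh
    exact hh.graph
  · intro h _ h' _ he
    funext x
    have h1 := congrFun he ![h x, x]
    simpa using h1

theorem exists_colouring {ι : Type} [Countable ι] (D : ι → Set (ℕ × ℕ))
    (hne : ∀ i p, p ∈ D i → p.1 ≠ p.2) (hinf : ∀ i, (D i).Infinite) :
    ∃ χ : ℕ → Bool, ∀ i, ∃ p ∈ D i, χ p.1 ≠ χ p.2 := by
  classical
  set U : ι → Set (ℕ → Bool) := fun i => {χ | ∃ p ∈ D i, χ p.1 ≠ χ p.2} with hU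
  have hopen : ∀ i, IsOpen (U i) := by
    intro i
    have h1 : U i = ⋃ p ∈ D i, {χ : ℕ → Bool | χ p.1 ≠ χ p.2} := by
      ext χ
      simp [hU]
    rw [h1]
    refine isOpen_biUnion fun p _ => ?_
    have h2 : {χ : ℕ → Bool | χ p.1 ≠ χ p.2} =
        (fun χ : ℕ → Bool => (χ p.1, χ p.2)) ⁻¹' {q | q.1 ≠ q.2} := rfl
    rw [h2]
    exact (isOpen_discrete _).preimage (by fun_prop)
  have hdense : ∀ i, Dense (U i) := by
    intro i
    rw [dense_iff_inter_open]
    rintro O hO ⟨χ₀, hχ₀⟩
    obtain ⟨I, u, hu, hsub⟩ := isOpen_pi_iff.1 hO χ₀ hχ₀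
    obtain ⟨p, hp, hpI⟩ : ∃ p ∈ D i, ¬ (p.1 ∈ I ∧ p.2 ∈ I) := by
      by_contra hcon
      push Not at hcon
      refine hinf i ((I ×ˢ I).finite_toSet.subset fun p hp => ?_)
      rw [Finset.mem_coe, Finset.mem_product]
      exact hcon p hp
    have hpne := hne i p hp
    by_cases h1 : p.1 ∈ I
    · have h2 : p.2 ∉ I := fun h => hpI ⟨h1, h⟩
      refine ⟨Function.update χ₀ p.2 (!χ₀ p.1), hsub fun a ha => ?_, p, hp, ?_⟩
      · rw [Function.update_of_ne (fun h : a = p.2 => h2 (h ▸ ha))]
        exact (hu a ha).2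
      · rw [Function.update_of_ne hpne, Function.update_self]
        cases χ₀ p.1 <;> simp
    · refine ⟨Function.update χ₀ p.1 (!χ₀ p.2), hsub fun a ha => ?_, p, hp, ?_⟩
      · rw [Function.update_of_ne (fun h : a = p.1 => h1 (h ▸ ha))]
        exact (hu a ha).2
      · rw [Function.update_self, Function.update_of_ne hpne.symm]
        cases χ₀ p.2 <;> simp
  obtain ⟨χ, hχ⟩ := (dense_iInter_of_isOpen hopen hdense).nonempty
  exact ⟨χ, fun i => Set.mem_iInter.1 hχ i⟩

end Pool.Agent.CBM
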