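import Pool.Agent.CBM.Defs

/-!
CB6. Roots of an increasing injection, and Banach's theorem from `Delta0 = E2Star`.
PROOF SKETCH. `root`: well-founded recursion is avoided by the definition: iterate `v + 1` times the map
`pre N (v + 1)` (a preimage of `v` is `< v`). `root_spec` by strong induction: if `v` has no preimage
then `pre N (v+1) v = v` and `root v = v`; if `N u = v` then `u < v`, `pre N b v = u` for all `b > u`,
and the iterates of `pre N (v+1)` and of `pre N (u+1)` from `u` agree and are stable after `u + 1` steps.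
`root_unique`: by injectivity two backward chains from the same point agree; a point outside the range
of `N` is the end.
-/

set_option autoImplicit false

namespace Pool.Agent.CBM

open Pool.Agent.Grz

/-- The first point of the chain of `v`. -/
noncomputable def root (N : ℕ → ℕ) (v : ℕ) : ℕ := (pre N (v + 1))^[v + 1] v

theorem root_pre_image {N : ℕ → ℕ} (hinj : Function.Injective N) {b u : ℕ} (hu : u < b) :
    pre N b (N u) = u := by
  have h : ∃ w, w < b ∧ N w = N u := ⟨u, hu, rfl⟩
  unfold pre
  rw [dif_pos h]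
  exact hinj (Nat.find_spec h).2

theorem root_pre_none {N : ℕ → ℕ} {b v : ℕ} (hv : ∀ u, N u ≠ v) : pre N b v = v := by
  have h : ¬ ∃ w, w < b ∧ N w = v := fun ⟨w, _, hw⟩ => hv w hw
  unfold pre
  rw [dif_neg h]

theorem root_iter {N : ℕ → ℕ} (hinj : Function.Injective N) (hlt : ∀ v, v < N v) {r b : ℕ}
    (hr : ∀ u, N u ≠ r) (n : ℕ) :
    ∀ v k, N^[n] r = v → v < b → n ≤ k → (pre N b)^[k] v = r := by
  induction n with
  | zero =>
    intro v k h _ _
    have h : r = v := h
    subst h
    exact Function.iterate_fixed (root_pre_none hr) k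
  | succ n ih =>
    intro v k h hv hk
    obtain ⟨k', rfl⟩ : ∃ k', k = k' + 1 := ⟨k - 1, by omega⟩
    rw [Function.iterate_succ_apply'] at h
    have h1 := hlt (N^[n] r)
    rw [Function.iterate_succ_apply, ← h, root_pre_image hinj (by omega)]
    exact ih _ k' rfl (by omega) (by omega)

theorem root_ge {N : ℕ → ℕ} (hlt : ∀ v, v < N v) (r n : ℕ) : n ≤ N^[n] r := by
  induction n with
  | zero => exact Nat.zero_le _
  | succ n ih =>
    rw [Function.iterate_succ_apply']
    have h1 := hlt (N^[n] r)
    omega

theorem root_unique {N : ℕ → ℕ} (hinj : Function.Injective N) (hlt : ∀ v, v < N v) {r v n : ℕ}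
    (hr : ∀ u, N u ≠ r) (h : N^[n] r = v) : root N v = r := by
  have h1 := root_ge hlt r n
  exact root_iter hinj hlt hr n v (v + 1) h (by omega) (by omega)

theorem root_exists {N : ℕ → ℕ} (hlt : ∀ v, v < N v) (v : ℕ) :
    ∃ r n, (∀ u, N u ≠ r) ∧ N^[n] r = v := by
  induction v using Nat.strong_induction_on with
  | _ v ih =>
    by_cases h : ∃ u, N u = v
    · obtain ⟨u, hu⟩ := h
      have h1 := hlt u
      obtain ⟨r, n, hr, hn⟩ := ih u (by omega)
      refine ⟨r, n + 1, hr, ?_⟩
      rw [Function.iterate_succ_apply', hn, hu]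
    · exact ⟨v, 0, fun u hu => h ⟨u, hu⟩, rfl⟩

theorem root_spec {N : ℕ → ℕ} (hinj : Function.Injective N) (hlt : ∀ v, v < N v) (v : ℕ) :
    (∀ u, N u ≠ root N v) ∧ ∃ n, N^[n] (root N v) = v := by
  obtain ⟨r, n, hr, hn⟩ := root_exists hlt v
  rw [root_unique hinj hlt hr hn]
  exact ⟨hr, n, hn⟩

theorem root_step {N : ℕ → ℕ} (hinj : Function.Injective N) (hlt : ∀ v, v < N v) (v : ℕ) :
    root N (N v) = root N v := by
  obtain ⟨h1, n, hn⟩ := root_spec hinj hlt v
  refine root_unique hinj hlt h1 (n := n + 1) ?_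
  rw [Function.iterate_succ_apply', hn]

/-- If `rho` is computed with a bound above `v` it is the parity of the root. -/
theorem rho_eq_root {N : ℕ → ℕ} (hinj : Function.Injective N) (hlt : ∀ v, v < N v) (v : ℕ) :
    rho N (v + 1) v = root N v % 2 := by
  have h1 : start N (v + 1) v = root N v := rfl
  unfold rho
  rw [h1, root_pre_none (root_spec hinj hlt v).1, if_pos rfl]

end Pool.Agent.CBM
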