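import Pool.Agent.CBM.Chain
import Pool.Agent.CBM.Root
import Pool.Agent.CBM.Flow

/-!
CB13. The flow of a bijection on one chain. `h` maps the left points of the chain of `lastV z s` onto the
right points, `h` and its inverse are bounded by `(x + 2) ^ k`. PROOF SKETCH. `N = cb fG (gG π)`, `r = v₀` the
root of `lastV z s`, `N^[n] r = lastV z s` (`chain`, `root_unique`). Let `x i = N^[i] r`; the points of the chain
are exactly the `x i` (`root_spec`, `root_unique`), all distinct (`N` is increasing), `x i ≡ r + i` modulo `2`.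
By hypothesis `2 * h (x i / 2) + 1` (`x i` even) resp. `2 * h.symm (x i / 2)` (`x i` odd) is again a point
of the chain, define `σ i` as its index: `x (σ i) = 2 * h (x i / 2) + 1` resp. `2 * h.symm (x i / 2)`. `σ` is an
involution that changes the parity. `x i` is a code of a point `(c, u)` (second component `< W z`) iff
`i ≤ n` (`chain` for `i ≤ n`, `tail_spec`, `tail_comp` for `i = n + 1 + j`: `x i / 2 = tail z s j`). With `J = k`:
if `n + 1 + 2 k ≤ i` then `n < σ i`: otherwise `y = x (σ i) / 2` has components `z`, `< W z`, and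
`x i / 2 = tail z s (i - n - 1) ≤ (y + 2) ^ k`, contradicting `tail_large`. `flow` gives the claim: `n + 1 + 2 j`:
`x i` even, `= 2 * tail z s (2 j)`, `σ i ≤ n ↔ (h (tail z s (2 j))).unpair.2 < W z`; `n + 2 + 2 j`: `x i` odd,
`σ i ≤ n ↔ (h.symm (tail z s (2 j + 1))).unpair.2 < W z`; `(n + 1) % 2 = r % 2` because `x n = lastV z s` is odd.
-/

set_option autoImplicit false

namespace Pool.Agent.CBM

open Pool.Agent.Grz

/-- The neighbour of a vertex under the bijection `h`. -/
def swp (h : ℕ ≃ ℕ) (v : ℕ) : ℕ := if v % 2 = 0 then 2 * h (v / 2) + 1 else 2 * h.symm (v / 2)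

theorem swp_even (h : ℕ ≃ ℕ) (a : ℕ) : swp h (2 * a) = 2 * h a + 1 := by
  unfold swp
  rw [if_pos (by omega), show 2 * a / 2 = a by omega]

theorem swp_odd (h : ℕ ≃ ℕ) (b : ℕ) : swp h (2 * b + 1) = 2 * h.symm b := by
  unfold swp
  rw [if_neg (by omega), show (2 * b + 1) / 2 = b by omega]

theorem swp_par (h : ℕ ≃ ℕ) (v : ℕ) : swp h v % 2 ≠ v % 2 := by
  unfold swp
  split_ifs <;> omega

theorem swp_swp (h : ℕ ≃ ℕ) (v : ℕ) : swp h (swp h v) = v := by
  obtain ⟨a, ha | ha⟩ : ∃ a, v = 2 * a ∨ v = 2 * a + 1 := ⟨v / 2, by omega⟩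
  · rw [ha, swp_even, swp_odd, Equiv.symm_apply_apply]
  · rw [ha, swp_odd, swp_even, Equiv.apply_symm_apply]

theorem swp_half {h : ℕ ≃ ℕ} {k : ℕ} (h1 : ∀ x, h x ≤ (x + 2) ^ k)
    (h2 : ∀ x, h.symm x ≤ (x + 2) ^ k) (v : ℕ) : swp h v / 2 ≤ (v / 2 + 2) ^ k := by
  obtain ⟨a, ha | ha⟩ : ∃ a, v = 2 * a ∨ v = 2 * a + 1 := ⟨v / 2, by omega⟩
  · rw [ha, swp_even, show (2 * h a + 1) / 2 = h a by omega, show 2 * a / 2 = a by omega]
    exact h1 a
  · rw [ha, swp_odd, show 2 * h.symm a / 2 = h.symm a by omega,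
      show (2 * a + 1) / 2 = a by omega]
    exact h2 a

theorem good_chain {π : ℕ → ℕ → ℕ} (hm : ∀ z, Set.MapsTo (π z) (Set.Iic z) (Set.Iic z))
    (hi : ∀ z, Set.InjOn (π z) (Set.Iic z)) {z s k : ℕ} (hz : 2 ≤ z) (hs : s ≤ z) (h : ℕ ≃ ℕ)
    (h1 : ∀ x, h x ≤ (x + 2) ^ k) (h2 : ∀ x, h.symm x ≤ (x + 2) ^ k)
    (hL : ∀ a, root (cb fG (gG π)) (2 * a) = root (cb fG (gG π)) (lastV z s) →
      root (cb fG (gG π)) (2 * h a + 1) = root (cb fG (gG π)) (lastV z s))
    (hR : ∀ b, root (cb fG (gG π)) (2 * b + 1) = root (cb fG (gG π)) (lastV z s) →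
      root (cb fG (gG π)) (2 * h.symm b) = root (cb fG (gG π)) (lastV z s)) :
    Reach (π z) 2 s ↔
      ((Finset.range k).filter (fun j => (h (tail z s (2 * j))).unpair.2 < W z)).card ≠
      ((Finset.range k).filter (fun j => (h.symm (tail z s (2 * j + 1))).unpair.2 < W z)).card := by
  have hinj : Function.Injective (cb fG (gG π)) := cb_inj fG_inj (gG_inj hm hi)
  have hlt : ∀ v, v < cb fG (gG π) v := cb_lt fG_lt (gG_lt hm)
  obtain ⟨r, n, hr, hn, hcomp, hpar⟩ := chain hm hi hz hs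
  have htail := fun j => tail_spec π hs j
  set N := cb fG (gG π) with hN
  have hNpar : ∀ v, N v % 2 ≠ v % 2 := cb_par fG (gG π)
  have hx1 : ∀ i, N^[i + 1] r = N (N^[i] r) := fun i => Function.iterate_succ_apply' N i r
  have hxm : StrictMono (fun i => N^[i] r) := by
    refine strictMono_nat_of_lt_succ fun i => ?_
    show N^[i] r < N^[i + 1] r
    rw [hx1]
    exact hlt _
  have hxinj : ∀ i j, N^[i] r = N^[j] r → i = j := fun i j hij => hxm.injective hij
  have hxroot : ∀ i, root N (N^[i] r) = r := fun i => root_unique hinj hlt hr rfl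
  have hroot : root N (lastV z s) = r := root_unique hinj hlt hr hn
  have hxpar : ∀ i, N^[i] r % 2 = (r + i) % 2 := by
    intro i
    induction i with
    | zero => rfl
    | succ i ih =>
      have h3 := hNpar (N^[i] r)
      rw [← hx1] at h3
      omega
  have hexi : ∀ i, ∃ j, N^[j] r = swp h (N^[i] r) := by
    intro i
    have h3 : root N (swp h (N^[i] r)) = r := by
      have h4 := hxroot i
      obtain ⟨a, ha | ha⟩ : ∃ a, N^[i] r = 2 * a ∨ N^[i] r = 2 * a + 1 :=
        ⟨N^[i] r / 2, by omega⟩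
      · rw [ha] at h4 ⊢
        rw [swp_even, hL a (h4.trans hroot.symm), hroot]
      · rw [ha] at h4 ⊢
        rw [swp_odd, hR a (h4.trans hroot.symm), hroot]
    obtain ⟨j, hj⟩ := (root_spec hinj hlt (swp h (N^[i] r))).2
    rw [h3] at hj
    exact ⟨j, hj⟩
  choose σ hσ using hexi
  have hσσ : ∀ i, σ (σ i) = i := by
    intro i
    refine hxinj _ _ ?_
    rw [hσ, hσ, swp_swp]
  have hσpar : ∀ i, σ i % 2 ≠ i % 2 := by
    intro i
    have h3 := swp_par h (N^[i] r)
    rw [← hσ] at h3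
    have h4 := hxpar i
    have h5 := hxpar (σ i)
    omega
  have hxtail : ∀ j, N^[n + 1 + j] r = 2 * tail z s j + j % 2 := by
    intro j
    rw [← htail j, ← hn, ← Function.iterate_add_apply]
    congr 1
    omega
  have hle : ∀ m, m ≤ n ↔ (N^[m] r / 2).unpair.2 < W z := by
    intro m
    constructor
    · intro hm'
      exact (hcomp m hm').2
    · intro hm'
      by_contra hcon
      obtain ⟨j, rfl⟩ : ∃ j, m = n + 1 + j := ⟨m - (n + 1), by omega⟩
      rw [hxtail j, show (2 * tail z s j + j % 2) / 2 = tail z s j by omega] at hm'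
      have := (tail_comp z s j).2
      omega
  have hJ : ∀ i, n + 1 + 2 * k ≤ i → n < σ i := by
    intro i hi'
    by_contra hcon
    obtain ⟨j, rfl⟩ : ∃ j, i = n + 1 + j := ⟨i - (n + 1), by omega⟩
    obtain ⟨c1, c2⟩ := hcomp (σ (n + 1 + j)) (by omega)
    have h3 : N^[n + 1 + j] r = swp h (N^[σ (n + 1 + j)] r) := by
      rw [← hσ, hσσ]
    have h4 := swp_half h1 h2 (N^[σ (n + 1 + j)] r)
    rw [← h3, hxtail j, show (2 * tail z s j + j % 2) / 2 = tail z s j by omega] at h4
    have h5 := tail_large (s := s) (show k ≤ j by omega) c1 c2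
    omega
  have hflow := flow hσσ hσpar hJ
  have e1 : ∀ j, σ (n + 1 + 2 * j) ≤ n ↔ (h (tail z s (2 * j))).unpair.2 < W z := by
    intro j
    rw [hle, hσ, hxtail (2 * j), show 2 * tail z s (2 * j) + 2 * j % 2 = 2 * tail z s (2 * j) by
      omega, swp_even, show (2 * h (tail z s (2 * j)) + 1) / 2 = h (tail z s (2 * j)) by omega]
  have e2 : ∀ j, σ (n + 2 + 2 * j) ≤ n ↔ (h.symm (tail z s (2 * j + 1))).unpair.2 < W z := by
    intro j
    rw [hle, hσ, show n + 2 + 2 * j = n + 1 + (2 * j + 1) by omega, hxtail (2 * j + 1),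
      show (2 * j + 1) % 2 = 1 by omega, swp_odd,
      show 2 * h.symm (tail z s (2 * j + 1)) / 2 = h.symm (tail z s (2 * j + 1)) by omega]
  simp only [e1, e2] at hflow
  have h6 : (r + n) % 2 = 1 := by
    rw [← hxpar n, hn]
    unfold lastV
    omega
  rw [← hpar, hflow]
  omega

end Pool.Agent.CBM
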