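import Pool.Agent.CBM.Chain
import Pool.Agent.CBM.Root

/-!
CB12. Banach's theorem implies `Delta0 = E2Star`.
-/

set_option autoImplicit false

namespace Pool.Agent.CBM

open Pool.Agent.Grz

/-- The set `C` of Banach's theorem knows on which side a chain starts. -/
theorem banach_chain {f g : ℕ → ℕ} (hf : Function.Injective f) (hg : Function.Injective g)
    {C : ℕ → Prop} (hC : ∀ x, C x ↔ ¬ ∃ y, (¬ ∃ x', C x' ∧ f x' = y) ∧ g y = x) {v₀ : ℕ}
    (hv : ∀ v, cb f g v ≠ v₀) (n : ℕ) :
    (∀ a, (cb f g)^[n] v₀ = 2 * a → (C a ↔ v₀ % 2 = 0)) ∧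
    (∀ b, (cb f g)^[n] v₀ = 2 * b + 1 → ((∃ x', C x' ∧ f x' = b) ↔ v₀ % 2 = 0)) := by
  induction n with
  | zero =>
    constructor
    · intro a ha
      simp only [Function.iterate_zero, id] at ha
      have : ∀ y, g y ≠ a := by
        intro y hy
        exact hv (2 * y + 1) (by rw [cb_odd, hy, ha])
      constructor
      · intro _; omega
      · intro _
        rw [hC]
        rintro ⟨y, _, hy⟩
        exact this y hy
    · intro b hb
      simp only [Function.iterate_zero, id] at hb
      have : ∀ x, f x ≠ b := by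
        intro x hx
        exact hv (2 * x) (by rw [cb_even, hx, hb])
      constructor
      · rintro ⟨x', _, hx'⟩
        exact absurd hx' (this x')
      · intro _; omega
  | succ n ih =>
    rw [Function.iterate_succ_apply']
    obtain ⟨ih1, ih2⟩ := ih
    rcases Nat.even_or_odd' ((cb f g)^[n] v₀) with ⟨c, hc | hc⟩
    · rw [hc, cb_even]
      constructor
      · intro a ha; omega
      · intro b hb
        have hb' : f c = b := by omega
        rw [← ih1 c hc]
        constructor
        · rintro ⟨x', h1, h2⟩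
          have : x' = c := hf (h2.trans hb'.symm)
          rwa [this] at h1
        · intro h
          exact ⟨c, h, hb'⟩
    · rw [hc, cb_odd]
      constructor
      · intro a ha
        have ha' : g c = a := by omega
        rw [← ih2 c hc, hC]
        constructor
        · intro h
          by_contra h'
          exact h ⟨c, h', ha'⟩
        · rintro h ⟨y, h1, h2⟩
          have : y = c := hg (h2.trans ha'.symm)
          rw [this] at h1
          exact h1 h
      · intro b hb; omega

theorem DFun.tail0 : DFun 1 (fun v => tail (2 * v 0 + 1) (2 * v 0) 0) := by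
  have hx : DFun 1 (fun v => 2 * v 0) := (DFun.const 2).mul (DFun.proj 0)
  have hz : DFun 1 (fun v => 2 * v 0 + 1) := hx.add (DFun.const 1)
  have hW : DFun 1 (fun v => W (2 * v 0 + 1)) := by
    unfold W
    exact (DFun.const 2).mul ((hz.add (DFun.const 2)).mul (hz.add (DFun.const 1)))
  have hl : DFun 1 (fun v => last (2 * v 0 + 1) (2 * v 0)) := by
    unfold last
    exact ((DFun.const 2).mul (((hz.add (DFun.const 1)).mul (hz.add (DFun.const 1))).add hx)).add
      (DFun.const 1)
  unfold tail
  simp only [Function.iterate_zero, id, sq]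
  exact hz.pair (((hW.mul hW).add (DFun.const 1)).add hl)

theorem eq_of_banach
    (H : ∀ f g : ℕ → ℕ, DInj f → DInj g → (∀ x, x < f x) → (∀ x, x < g x) →
      ∃ C : ℕ → Prop, Delta0 1 (fun v => C (v 0)) ∧
        ∀ x, C x ↔ ¬ ∃ y, (¬ ∃ x', C x' ∧ f x' = y) ∧ g y = x)
    {n : ℕ} {R : (Fin n → ℕ) → Prop} (hR : E2Star n R) : Delta0 n R := by
  refine delta0_of_reach ?_ hR
  intro φ h0 h1 h2 hφ
  have hle : ∀ x, φ x ≤ x := by
    intro x
    rcases Nat.lt_or_ge x 2 with h | h
    · interval_cases x
      · omega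
      · omega
    · exact (h2 x h).le
  have hm : ∀ z, Set.MapsTo (tour φ z) (Set.Iic z) (Set.Iic z) := tour_mapsTo hle
  have hi : ∀ z, Set.InjOn (tour φ z) (Set.Iic z) := fun z => (tour_injective hle z).injOn
  have hπ : DFun 2 (fun v => tour φ (v 0) (v 1)) := DFun.tour hφ (DFun.proj 0) (DFun.proj 1)
  have hf := fG_dInj
  have hg := gG_dInj hm hi hπ
  obtain ⟨C, hCd, hC⟩ := H fG (gG (tour φ)) hf hg fG_lt (gG_lt hm)
  refine ((Delta0.leFun (DFun.const 1) (DFun.proj 0)).and
    (Delta0.comp1 (P := C) hCd DFun.tail0).not).of_iff ?_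
  intro v
  set x := v 0 with hx
  rcases Nat.eq_zero_or_pos x with hx0 | hx0
  · rw [hx0]
    constructor
    · rintro ⟨t, ht⟩
      rw [Function.iterate_fixed h0] at ht
      omega
    · rintro ⟨h, _⟩
      omega
  · obtain ⟨v₀, m, c1, c2, _, c4⟩ := chain hm hi (z := 2 * x + 1) (s := 2 * x) (by omega)
      (by omega)
    have ht := tail_spec (tour φ) (z := 2 * x + 1) (s := 2 * x) (by omega) 0
    have hit : (cb fG (gG (tour φ)))^[m + 1] v₀ = 2 * tail (2 * x + 1) (2 * x) 0 := by
      rw [Function.iterate_succ_apply', c2]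
      simpa using ht
    have hkey := (banach_chain hf.1 hg.1 hC c1 (m + 1)).1 _ hit
    have hreach := reach_tour_iff (f := φ) hle (z := 2 * x + 1) (x := x) (r := 1) (by omega) h1
    rw [← hreach, show 2 * 1 = 2 from rfl, ← c4, hkey]
    constructor
    · intro h
      exact ⟨hx0, by omega⟩
    · rintro ⟨_, h⟩
      omega

end Pool.Agent.CBM
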