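import Pool.Agent.CBM.Good
import Pool.Agent.CBM.Generic

/-!
CB14. Myhill's theorem implies `Delta0 = E2Star`. PROOF SKETCH. `delta0_of_reach`: given a regressive `φ`,
`π z = tour φ z`, `f = fG`, `g = gG π`, `N = cb f g` (as in LowerB.lean). Let `ι` be the type of all bijections
`h : ℕ ≃ ℕ` with `DFun 1 (fun v => h (v 0))` for which `D h = {(c, c') | c ≠ c' ∧ ∃ a, root N (2 a) = c ∧
root N (2 h a + 1) = c'}` is infinite; `ι` is countable (`countable_dfun`, `h` is determined by its function).
`exists_colouring` gives `χ`. `A = {a | χ (root N (2 a)) = true}`, `B = {b | χ (root N (2 b + 1)) = true}`: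
`x ∈ A ↔ f x ∈ B`, `x ∈ B ↔ g x ∈ A` by `root_step`. The hypothesis gives `h`; `D h` is finite, because otherwise
there is `(c, c') ∈ D h` with `χ c ≠ χ c'`, contradicting `a ∈ A ↔ h a ∈ B`. For `x ≥ 1`, `z = 2 x + 1`, `s = 2 x`,
`r x = root N (lastV z s)`: `r` is injective on `x ≥ 1` (if `r x = r x'`, both `2 tail z s 0`, `2 tail z' s' 0` are
iterates of `r x` (`tail_spec` for `j = 0`, `root_spec`), so one is an iterate of the other: `tail_sep`). So
for all but finitely many `x` the root `r x` is neither a first nor a second component of a member of `D h`,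
and then `hL`, `hR` of `good_chain` hold. (`k` from `pow_bound`; take the maximum for `h`, `h.symm`.)
By `reach_tour_iff`: `(∃ t, φ^[t] x = 1) ↔ E x` for all but finitely many `x`, where `E x` is the right side of
`good_chain`, a `Delta0` predicate: the cardinality is a finite sum `∑ j ∈ range k, if .. then 1 else 0` of
`DFun`s (induction on `k`; `tail (2x+1) (2x) i` is a `DFun` of `x` for every fixed `i`, by induction on `i`).
A predicate that agrees with a `Delta0` predicate outside a finite set is `Delta0`.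
-/

set_option autoImplicit false

namespace Pool.Agent.CBM

open Pool.Agent.Grz

theorem dfun_sum {n : ℕ} (k : ℕ) {f : ℕ → (Fin n → ℕ) → ℕ} (hf : ∀ j, DFun n (f j)) :
    DFun n (fun v => ∑ j ∈ Finset.range k, f j v) := by
  induction k with
  | zero => simpa using DFun.const (n := n) 0
  | succ k ih =>
    simp only [Finset.sum_range_succ]
    exact ih.add (hf k)

theorem dfun_card {n : ℕ} (k : ℕ) {P : ℕ → (Fin n → ℕ) → Prop} [∀ j v, Decidable (P j v)]
    (hP : ∀ j, Delta0 n (P j)) :
    DFun n (fun v => ((Finset.range k).filter (fun j => P j v)).card) := by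
  simp only [Finset.card_filter]
  exact dfun_sum k fun j => DFun.ite (hP j) (DFun.const 1) (DFun.const 0)

theorem dfun_W {n : ℕ} {c : (Fin n → ℕ) → ℕ} (hc : DFun n c) : DFun n (fun v => W (c v)) :=
  (DFun.const 2).mul ((hc.add (DFun.const 2)).mul (hc.add (DFun.const 1)))

theorem dfun_iter {n : ℕ} {c : (Fin n → ℕ) → ℕ} (hc : DFun n c) (j : ℕ) :
    DFun n (fun v => (fun w => (w + 2) ^ 2)^[j] (c v)) := by
  induction j with
  | zero => simpa using hc
  | succ j ih =>
    have h2 := ih.add (DFun.const 2)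
    have e : (fun v => (fun w => (w + 2) ^ 2)^[j + 1] (c v)) =
        fun v => ((fun w => (w + 2) ^ 2)^[j] (c v) + 2) * ((fun w => (w + 2) ^ 2)^[j] (c v) + 2) := by
      funext v
      rw [Function.iterate_succ_apply']
      exact sq _
    rw [e]
    exact h2.mul h2

theorem dfun_tail {n : ℕ} {z s : (Fin n → ℕ) → ℕ} (hz : DFun n z) (hs : DFun n s) (j : ℕ) :
    DFun n (fun v => tail (z v) (s v) j) := by
  unfold tail
  refine DFun.pair hz (dfun_iter ?_ j)
  simp only [sq]
  unfold last
  exact (((dfun_W hz).mul (dfun_W hz)).add (DFun.const 1)).add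
    (((DFun.const 2).mul (((hz.add (DFun.const 1)).mul (hz.add (DFun.const 1))).add hs)).add
      (DFun.const 1))

/-- A predicate that agrees with a `Delta0` predicate outside a finite set is `Delta0`. -/
theorem delta0_of_finset {E : ℕ → Prop} (hE : Delta0 1 (fun v => E (v 0))) (F : Finset ℕ) :
    ∀ P : ℕ → Prop, (∀ x, x ∉ F → (P x ↔ E x)) → Delta0 1 (fun v => P (v 0)) := by
  induction F using Finset.induction_on with
  | empty =>
    intro P h
    exact hE.of_iff fun v => h (v 0) (Finset.notMem_empty _)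
  | insert a F _ ih =>
    intro P h
    have h1 := ih (fun x => (x ≠ a ∧ P x) ∨ (x = a ∧ E a)) (by
      intro x hx
      by_cases hxa : x = a
      · subst hxa
        simp
      · have := h x (by simp [hxa, hx])
        simp [hxa, this])
    have ha : Delta0 1 (fun v => v 0 = a) := Delta0.eqFun (DFun.proj 0) (DFun.const a)
    by_cases hPa : P a
    · refine (ha.or h1).of_iff fun v => ?_
      by_cases hv : v 0 = a
      · simp [hv, hPa]
      · simp [hv]
    · refine (ha.not.and h1).of_iff fun v => ?_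
      by_cases hv : v 0 = a
      · simp [hv, hPa]
      · simp [hv]

theorem eq_of_myhill
    (H : ∀ f g : ℕ → ℕ, DInj f → DInj g → (∀ x, x < f x) → (∀ x, x < g x) →
      ∀ A B : Set ℕ, (∀ x, x ∈ A ↔ f x ∈ B) → (∀ x, x ∈ B ↔ g x ∈ A) →
        ∃ h : ℕ ≃ ℕ, DFun 1 (fun v => h (v 0)) ∧ DFun 1 (fun v => h.symm (v 0)) ∧
          ∀ x, x ∈ A ↔ h x ∈ B)
    {n : ℕ} {R : (Fin n → ℕ) → Prop} (hR : E2Star n R) : Delta0 n R := by
  refine delta0_of_reach (fun φ h0 h1 hlt hφ => ?_) hR
  have hle : ∀ x, φ x ≤ x := by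
    intro x
    rcases Nat.lt_or_ge x 2 with hx | hx
    · rcases (show x = 0 ∨ x = 1 by omega) with rfl | rfl
      · exact h0.le
      · exact h1.le
    · exact (hlt x hx).le
  have hm : ∀ z, Set.MapsTo (tour φ z) (Set.Iic z) (Set.Iic z) := tour_mapsTo hle
  have hi : ∀ z, Set.InjOn (tour φ z) (Set.Iic z) := fun z => (tour_injective hle z).injOn
  have hπ : DFun 2 (fun v => tour φ (v 0) (v 1)) := DFun.tour hφ (DFun.proj 0) (DFun.proj 1)
  have hg := gG_dInj hm hi hπ
  set N := cb fG (gG (tour φ)) with hN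
  have hinj : Function.Injective N := cb_inj fG_dInj.1 hg.1
  have hNlt : ∀ v, v < N v := cb_lt fG_lt (gG_lt hm)
  let D : (ℕ ≃ ℕ) → Set (ℕ × ℕ) := fun h =>
    {p | p.1 ≠ p.2 ∧ ∃ a, root N (2 * a) = p.1 ∧ root N (2 * h a + 1) = p.2}
  let ι : Type := {h : ℕ ≃ ℕ // DFun 1 (fun v => h (v 0)) ∧ (D h).Infinite}
  have hc : Countable ι := by
    have := countable_dfun.to_subtype
    let e : ι → {h : ℕ → ℕ | DFun 1 (fun v => h (v 0))} := fun i => ⟨i.1, i.2.1⟩
    have he : Function.Injective e := by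
      intro i j hij
      have h2 : (i.1 : ℕ → ℕ) = j.1 := congrArg Subtype.val hij
      exact Subtype.ext (DFunLike.coe_injective h2)
    exact he.countable
  obtain ⟨χ, hχ⟩ := exists_colouring (fun i : ι => D i.1) (fun i p hp => hp.1) (fun i => i.2.2)
  obtain ⟨h, hh, hh', hAB⟩ := H fG (gG (tour φ)) fG_dInj hg fG_lt (gG_lt hm)
    {a | χ (root N (2 * a)) = true} {b | χ (root N (2 * b + 1)) = true}
    (by
      intro x
      have e1 : root N (2 * fG x + 1) = root N (2 * x) := by
        rw [← root_step hinj hNlt (2 * x), hN, cb_even]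
      simp only [Set.mem_ofPred_eq, e1])
    (by
      intro x
      have e1 : root N (2 * gG (tour φ) x) = root N (2 * x + 1) := by
        rw [← root_step hinj hNlt (2 * x + 1), hN, cb_odd]
      simp only [Set.mem_ofPred_eq, e1])
  have hD : (D h).Finite := by
    by_contra hinf
    obtain ⟨p, ⟨-, a, ha1, ha2⟩, hp⟩ := hχ ⟨h, hh, hinf⟩
    have := hAB a
    simp only [Set.mem_ofPred_eq, ha1, ha2] at this
    exact hp (Bool.eq_iff_iff.2 this)
  obtain ⟨k1, hk1⟩ := pow_bound hh
  obtain ⟨k2, hk2⟩ := pow_bound hh'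
  set k := max k1 k2 with hk
  have hb1 : ∀ x, h x ≤ (x + 2) ^ k := fun x =>
    (hk1 x).trans (Nat.pow_le_pow_right (by omega) (le_max_left _ _))
  have hb2 : ∀ x, h.symm x ≤ (x + 2) ^ k := fun x =>
    (hk2 x).trans (Nat.pow_le_pow_right (by omega) (le_max_right _ _))
  let r : ℕ → ℕ := fun x => root N (lastV (2 * x + 1) (2 * x))
  have hr0 : ∀ x, ∃ m, N^[m] (r x) = 2 * tail (2 * x + 1) (2 * x) 0 := by
    intro x
    obtain ⟨-, m, hm'⟩ := root_spec hinj hNlt (lastV (2 * x + 1) (2 * x))
    refine ⟨m + 1, ?_⟩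
    have h2 : N (lastV (2 * x + 1) (2 * x)) = 2 * tail (2 * x + 1) (2 * x) 0 :=
      tail_spec (tour φ) (z := 2 * x + 1) (s := 2 * x) (by omega) 0
    rw [Function.iterate_succ_apply', hm', h2]
  have key : ∀ x y m m', m ≤ m' → N^[m] (r x) = 2 * tail (2 * x + 1) (2 * x) 0 →
      N^[m'] (r x) = 2 * tail (2 * y + 1) (2 * y) 0 → x = y := by
    intro x y m m' hmm h1 h2
    have h3 : N^[m' - m] (2 * tail (2 * x + 1) (2 * x) 0) =
        N^[0] (2 * tail (2 * y + 1) (2 * y) 0) := by
      rw [← h1, ← Function.iterate_add_apply, Nat.sub_add_cancel hmm, h2]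
      rfl
    have := (tail_sep (tour φ) (z := 2 * x + 1) (s := 2 * x) (z' := 2 * y + 1) (s' := 2 * y)
      (by omega) (by omega) h3).2
    omega
  have hr : Function.Injective r := by
    intro x y hxy
    obtain ⟨m, hmx⟩ := hr0 x
    obtain ⟨m', hmy⟩ := hr0 y
    rcases le_total m m' with hle' | hle'
    · exact key x y m m' hle' hmx (by rw [hxy]; exact hmy)
    · exact (key y x m' m hle' hmy (by rw [← hxy]; exact hmx)).symm
  have hX : (r ⁻¹' (Prod.fst '' D h ∪ Prod.snd '' D h) ∪ {0}).Finite :=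
    (((hD.image _).union (hD.image _)).preimage hr.injOn).union (Set.finite_singleton 0)
  refine delta0_of_finset (E := fun x =>
      ((Finset.range k).filter (fun j =>
        (h (tail (2 * x + 1) (2 * x) (2 * j))).unpair.2 < W (2 * x + 1))).card ≠
      ((Finset.range k).filter (fun j =>
        (h.symm (tail (2 * x + 1) (2 * x) (2 * j + 1))).unpair.2 < W (2 * x + 1))).card)
    ?_ hX.toFinset (fun x => ∃ t, φ^[t] x = 1) ?_
  · have hz : DFun 1 (fun v => 2 * v 0 + 1) :=
      ((DFun.const 2).mul (DFun.proj 0)).add (DFun.const 1)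
    have hs : DFun 1 (fun v => 2 * v 0) := (DFun.const 2).mul (DFun.proj 0)
    refine (Delta0.eqFun (dfun_card k fun j => ?_) (dfun_card k fun j => ?_)).not
    · exact Delta0.ltFun (DFun.unpair2 (DFun.comp1 hh (dfun_tail hz hs (2 * j)))) (dfun_W hz)
    · exact Delta0.ltFun (DFun.unpair2 (DFun.comp1 hh' (dfun_tail hz hs (2 * j + 1))))
        (dfun_W hz)
  · intro x hx
    rw [Set.Finite.mem_toFinset] at hx
    have hx0 : x ≠ 0 := fun h => hx (Or.inr h)
    have hxS : r x ∉ Prod.fst '' D h ∪ Prod.snd '' D h := fun h => hx (Or.inl h)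
    rw [← reach_tour_iff hle (z := 2 * x + 1) (x := x) (r := 1) (by omega) h1]
    refine good_chain hm hi (by omega) (by omega) h hb1 hb2 ?_ ?_
    · intro a ha
      by_contra hne
      exact hxS (Or.inl ⟨(root N (2 * a), root N (2 * h a + 1)),
        ⟨fun heq => hne (heq.symm.trans ha), a, rfl, rfl⟩, ha⟩)
    · intro b hb
      by_contra hne
      refine hxS (Or.inr ⟨(root N (2 * h.symm b), root N (2 * b + 1)),
        ⟨fun heq => hne (heq.trans hb), h.symm b, rfl, ?_⟩, hb⟩)
      simp

end Pool.Agent.CBM
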