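import Pool.Agent.CBM.Stage

/-!
CB3. The matching of all points. `q` is a bound with `N v < q b` for `v < b`; the thresholds are
`a_0 = 1`, `a_(j+1) = q a_j`; `hiv v` is the least threshold above `v`, `lov v` the one before
(`0` if `hiv v = 1`, that is `v = 0`).

PROOF SKETCH. First: `hiv v = q^[j] 1` for some `j`, `v < hiv v`, and `lov v ≤ v`;
`lov v = 0` if `j = 0`, `lov v = q^[j-1] 1` if `j ≥ 1`; (`(hstep v)^[i] 1 = q^[i] 1` as long as
`q^[i-1] 1 ≤ v`, and `i < q^[i] 1`, so the iteration has stopped after `v + 1` steps.) It is convenient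
to work with the sequence `a : ℕ → ℕ`, `a 0 = 0`, `a (j+1) = q^[j] 1`, strictly increasing, and the level
`l` of `v`: `a l ≤ v < a (l+1)`, `lov v = a l`, `hiv v = a (l+1)`, `q (hiv v) = a (l+2)`.
Stage `j` is `mm N (a j) (a (j+1))`; `mm_spec` applies: `a j ≤ a (j+1)` and `v < a j → N v < a (j+1)`.
Let `l` be the level of `v`. Then `v ∈ U_l` (`a l ≤ v`). CASE 1: `v` is not left over at stage `l`
(`N v < a (l+1)` or `rho (a (l+1)) v ≠ v % 2`): `w = MM v = mm_l v ≠ v`. `w ∈ U_l`, `mm_l w = v ≠ w`, so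
`w` is not left over at stage `l`. Either `a l ≤ w < a (l+1)`: the level of `w` is `l`, `MM w = mm_l w = v`.
Or `w < a l` and `a l ≤ N w`, `rho (a l) w = w % 2`: then `l ≥ 1`, the level of `w` is `l - 1`
(`w < a (l-1)` would give `N w < a l`), `w` is left over at stage `l - 1`, so `MM w = mm_l w = v`.
CASE 2: `v` is left over at stage `l` (`a (l+1) ≤ N v`, `rho (a (l+1)) v = v % 2`): then
`v ∈ U_(l+1)`, `w = MM v = mm_(l+1) v ≠ v` because `N v < a (l+2)`; `w ∈ U_(l+1)`, and as before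
`MM w = mm_(l+1) w = v`: if `a (l+1) ≤ w` the level of `w` is `l + 1` and `w` is not left over there
(`mm_(l+1) w ≠ w`); if `w < a (l+1)` then `w` is left over at stage `l` and its level is `l`.
(So it is best to prove: `v` has a unique stage `j` with `v ∈ U_j`, `mm_j v ≠ v`, and `MM v = mm_j v`.)
Bound: `MM v < q (hiv v)`.
-/

set_option autoImplicit false

namespace Pool.Agent.CBM

open Pool.Agent.Grz

/-- The least threshold above `v`. -/
def hiv (q : ℕ → ℕ) (v : ℕ) : ℕ := (fun b => if b ≤ v then q b else b)^[v + 1] 1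

/-- The greatest threshold that is at most `v`, or `0`. -/
def lov (q : ℕ → ℕ) (v : ℕ) : ℕ :=
  if 1 ≤ v then (fun b => if q b ≤ v then q b else b)^[v] 1 else 0

/-- The partner of `v`. -/
noncomputable def MM (N q : ℕ → ℕ) (v : ℕ) : ℕ :=
  if hiv q v ≤ N v ∧ rho N (hiv q v) v = v % 2 then mm N (hiv q v) (q (hiv q v)) v
  else mm N (lov q v) (hiv q v) v

/-! ### The thresholds as a sequence -/

/-- The sequence of the thresholds, starting with `0`. -/
def thr (q : ℕ → ℕ) : ℕ → ℕ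
  | 0 => 0
  | j + 1 => q^[j] 1

theorem thr_succ (q : ℕ → ℕ) (j : ℕ) : thr q (j + 2) = q (thr q (j + 1)) := by
  show q^[j + 1] 1 = q (q^[j] 1)
  rw [Function.iterate_succ_apply']

theorem thr_strictMono {q : ℕ → ℕ} (hq : ∀ b, b < q b) : StrictMono (thr q) := by
  refine strictMono_nat_of_lt_succ fun j => ?_
  cases j with
  | zero => exact Nat.zero_lt_one
  | succ j => rw [thr_succ]; exact hq _

theorem exists_lev {q : ℕ → ℕ} (hq : ∀ b, b < q b) (v : ℕ) :
    ∃ l, thr q l ≤ v ∧ v < thr q (l + 1) ∧ l ≤ v := by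
  classical
  have hm := thr_strictMono hq
  have hex : ∃ n, v < thr q (n + 1) := ⟨v, lt_of_lt_of_le (Nat.lt_succ_self v) (hm.id_le (v + 1))⟩
  obtain ⟨l, hl, hmin⟩ : ∃ l, v < thr q (l + 1) ∧ ∀ m, m < l → ¬ v < thr q (m + 1) :=
    ⟨Nat.find hex, Nat.find_spec hex, fun m hm => Nat.find_min hex hm⟩
  have h1 : thr q l ≤ v := by
    cases l with
    | zero => exact Nat.zero_le _
    | succ l => exact not_lt.1 (hmin l (Nat.lt_succ_self l))
  exact ⟨l, h1, hl, (hm.id_le l).trans h1⟩

theorem iter_fixed {f : ℕ → ℕ} {x y m n : ℕ} (h : f^[m] x = y) (hy : f y = y) (hmn : m ≤ n) :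
    f^[n] x = y := by
  obtain ⟨k, rfl⟩ := Nat.exists_eq_add_of_le hmn
  rw [Nat.add_comm, Function.iterate_add_apply, h]
  exact Function.iterate_fixed hy k

theorem hiv_eq {q : ℕ → ℕ} (hq : ∀ b, b < q b) {v l : ℕ} (h1 : thr q l ≤ v)
    (h2 : v < thr q (l + 1)) : hiv q v = thr q (l + 1) := by
  have hm := thr_strictMono hq
  have key : ∀ i, i ≤ l → (fun b => if b ≤ v then q b else b)^[i] 1 = thr q (i + 1) := by
    intro i
    induction i with
    | zero => intro _; rfl
    | succ i ih =>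
      intro hi
      rw [Function.iterate_succ_apply', ih (by omega)]
      have h3 : thr q (i + 1) ≤ v := (hm.monotone hi).trans h1
      simp only [if_pos h3]
      exact (thr_succ q i).symm
  unfold hiv
  refine iter_fixed (key l le_rfl) ?_ (((hm.id_le l).trans h1).trans (Nat.le_succ v))
  simp only [if_neg (not_le.2 h2)]

theorem lov_eq {q : ℕ → ℕ} (hq : ∀ b, b < q b) {v l : ℕ} (h1 : thr q l ≤ v)
    (h2 : v < thr q (l + 1)) : lov q v = thr q l := by
  have hm := thr_strictMono hq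
  cases l with
  | zero =>
    have h3 : v < 1 := h2
    unfold lov
    rw [if_neg (by omega)]
    rfl
  | succ l =>
    have h3 : 1 ≤ v := le_trans (show thr q 1 ≤ thr q (l + 1) from hm.monotone (by omega)) h1
    have key : ∀ i, i ≤ l → (fun b => if q b ≤ v then q b else b)^[i] 1 = thr q (i + 1) := by
      intro i
      induction i with
      | zero => intro _; rfl
      | succ i ih =>
        intro hi
        rw [Function.iterate_succ_apply', ih (by omega)]
        have h3 : q (thr q (i + 1)) ≤ v := by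
          rw [← thr_succ q]
          exact (hm.monotone (by omega)).trans h1
        simp only [if_pos h3]
        exact (thr_succ q i).symm
    unfold lov
    rw [if_pos h3]
    refine iter_fixed (key l le_rfl) ?_ ((Nat.le_succ l).trans ((hm.id_le (l + 1)).trans h1))
    rw [← thr_succ q, if_neg (not_le.2 h2)]

theorem MM_eq {N q : ℕ → ℕ} (hq : ∀ b, b < q b) {v l : ℕ} (h1 : thr q l ≤ v)
    (h2 : v < thr q (l + 1)) : MM N q v =
      if thr q (l + 1) ≤ N v ∧ rho N (thr q (l + 1)) v = v % 2 then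
        mm N (thr q (l + 1)) (thr q (l + 2)) v
      else mm N (thr q l) (thr q (l + 1)) v := by
  unfold MM
  rw [hiv_eq hq h1 h2, lov_eq hq h1 h2, thr_succ]

theorem thr_hlo {N q : ℕ → ℕ} (hNq : ∀ b v, v < b → N v < q b) (j v : ℕ) (hv : v < thr q j) :
    N v < thr q (j + 1) := by
  cases j with
  | zero => exact absurd hv (Nat.not_lt_zero _)
  | succ j => rw [thr_succ]; exact hNq _ _ hv

/-- The stage at which `v` is matched. -/
theorem MM_stage {N q : ℕ → ℕ} (hinj : Function.Injective N) (hpar : ∀ v, N v % 2 ≠ v % 2)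
    (hq : ∀ b, b < q b) (hNq : ∀ b v, v < b → N v < q b) (v : ℕ) :
    ∃ j, inU N (thr q j) (thr q (j + 1)) v ∧ mm N (thr q j) (thr q (j + 1)) v ≠ v ∧
      MM N q v = mm N (thr q j) (thr q (j + 1)) v ∧ thr q (j + 1) ≤ q (hiv q v) := by
  have hm := thr_strictMono hq
  obtain ⟨l, h1, h2, -⟩ := exists_lev hq v
  have hMM := MM_eq (N := N) hq h1 h2
  have hh := hiv_eq hq h1 h2
  by_cases hc : thr q (l + 1) ≤ N v ∧ rho N (thr q (l + 1)) v = v % 2
  · rw [if_pos hc] at hMM
    have hU : inU N (thr q (l + 1)) (thr q (l + 2)) v :=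
      ⟨h2.trans (hm (by omega)), Or.inr hc⟩
    refine ⟨l + 1, hU, ?_, hMM, ?_⟩
    · intro h
      have := ((mm_spec hinj hpar (hm.monotone (by omega)) (thr_hlo hNq (l + 1)) hU).2.2.1.1 h).1
      exact absurd this (not_le.2 (thr_hlo hNq (l + 1) v h2))
    · rw [hh, ← thr_succ q]
  · rw [if_neg hc] at hMM
    have hU : inU N (thr q l) (thr q (l + 1)) v := ⟨h2, Or.inl h1⟩
    refine ⟨l, hU, ?_, hMM, ?_⟩
    · intro h
      exact hc ((mm_spec hinj hpar (hm.monotone (by omega)) (thr_hlo hNq l) hU).2.2.1.1 h)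
    · rw [hh]
      exact (hq _).le

theorem MM_of_stage {N q : ℕ → ℕ} (hinj : Function.Injective N) (hpar : ∀ v, N v % 2 ≠ v % 2)
    (hq : ∀ b, b < q b) (hNq : ∀ b v, v < b → N v < q b) {j w : ℕ}
    (hU : inU N (thr q j) (thr q (j + 1)) w) (hw : mm N (thr q j) (thr q (j + 1)) w ≠ w) :
    MM N q w = mm N (thr q j) (thr q (j + 1)) w := by
  have hm := thr_strictMono hq
  obtain ⟨l, h1, h2, -⟩ := exists_lev hq w
  rw [MM_eq hq h1 h2]
  have hlj : l < j + 1 := hm.lt_iff_lt.1 (lt_of_le_of_lt h1 hU.1)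
  have hspec := mm_spec hinj hpar (hm.monotone (Nat.le_succ j)) (thr_hlo hNq j) hU
  rcases hU.2 with h3 | h3
  · have hjl : j < l + 1 := hm.lt_iff_lt.1 (lt_of_le_of_lt h3 h2)
    obtain rfl : l = j := by omega
    rw [if_neg]
    intro hc
    exact hw (hspec.2.2.1.2 hc)
  · rcases lt_or_ge w (thr q j) with h4 | h4
    · have hlj' : l < j := hm.lt_iff_lt.1 (lt_of_le_of_lt h1 h4)
      have h5 : j < l + 2 := by
        by_contra hcon
        have h6 : N w < thr q (l + 2) := thr_hlo hNq (l + 1) w h2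
        have h7 : thr q (l + 2) ≤ thr q j := hm.monotone (by omega)
        have := h3.1
        omega
      obtain rfl : j = l + 1 := by omega
      rw [if_pos h3]
    · have hjl : j < l + 1 := hm.lt_iff_lt.1 (lt_of_le_of_lt h4 h2)
      obtain rfl : l = j := by omega
      rw [if_neg]
      intro hc
      exact hw (hspec.2.2.1.2 hc)

theorem MM_spec {N q : ℕ → ℕ} (hinj : Function.Injective N) (hpar : ∀ v, N v % 2 ≠ v % 2)
    (hq : ∀ b, b < q b) (hmono : Monotone q) (hNq : ∀ b v, v < b → N v < q b) (v : ℕ) :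
    MM N q (MM N q v) = v ∧ MM N q v % 2 ≠ v % 2 ∧ (∃ s t, N^[s] (MM N q v) = N^[t] v) ∧
      MM N q v < q (hiv q v) := by
  have hm := thr_strictMono hq
  obtain ⟨j, hU, hne, hMM, hb⟩ := MM_stage hinj hpar hq hNq v
  obtain ⟨hU', hinv, -, hp, hchain⟩ :=
    mm_spec hinj hpar (hm.monotone (Nat.le_succ j)) (thr_hlo hNq j) hU
  rw [hMM]
  refine ⟨?_, hp hne, hchain, lt_of_lt_of_le hU'.1 hb⟩
  rw [MM_of_stage hinj hpar hq hNq hU' ?_, hinv]
  rw [hinv]
  exact fun h => hne h.symm

theorem hiv_le {q : ℕ → ℕ} (hq : ∀ b, b < q b) (hmono : Monotone q) (v : ℕ) :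
    v < hiv q v ∧ hiv q v ≤ q (v + 1) := by
  obtain ⟨l, h1, h2, -⟩ := exists_lev hq v
  rw [hiv_eq hq h1 h2]
  refine ⟨h2, ?_⟩
  cases l with
  | zero =>
    show 1 ≤ _
    have := hq (v + 1)
    omega
  | succ l =>
    rw [thr_succ]
    exact hmono (by omega)

end Pool.Agent.CBM
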