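import Pool.Agent.CBM.Match

/-!
CB4. The matching is in `E2`. Use `DFun.e2`, `E2.ofGraph`, `E2.iterate` / `E2.iter_family`
(Grz/Iter, Grz/Matrices), `E2.ite`, `E2.comp2`, `E2.comp3`, `E2.min`, `E2.mod` (GAvg/E2Tools), `E2Star.bex`, ...
PROOF SKETCH. `q` is a polynomial, so `q` is in `E2` and `hiv q` is the value of an iteration that is
bounded: by `hiv_le`-like arguments every iterate of `b ↦ if b ≤ v then q b else b` from `1` is
`≤ q (v + 1)` (`q` monotone). `lov` is similar, all iterates are `≤ v` (if `1 ≤ v`).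
`(b, v) ↦ pre N b v` has values `≤ max b v ≤ b + v`; its graph is `w = pre N b v ↔ (w < b ∧ N w = v) ∨
((∀ u ≤ b, ¬ (u < b ∧ N u = v)) ∧ w = v)`. `start`, `fin`: iterations with values `≤ b + v`.
Then `rho`, `nu`, `mu`, `mm`, `MM` are compositions (as functions of 2 or 3 numbers, with values bounded
by `b + v` resp. `N (b + v)`, no bound is needed for compositions).
-/

set_option autoImplicit false

namespace Pool.Agent.CBM

open Pool.Agent.Grz

private theorem me_ite {n : ℕ} {P : (Fin n → ℕ) → Prop} [∀ v, Decidable (P v)] (hP : E2Star n P)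
    {f g : (Fin n → ℕ) → ℕ} (hf : E2 n f) (hg : E2 n g) :
    E2 n (fun v => if P v then f v else g v) := by
  refine (E2.ite hP hf hg).congr ?_
  intro v
  by_cases h : P v
  · rw [if_pos h, if_pos h]
  · rw [if_neg h, if_neg h]

private theorem me_poly {n : ℕ} (P : Polynomial ℕ) {f : (Fin n → ℕ) → ℕ} (hf : E2 n f) :
    E2 n (fun v => P.eval (f v)) := by
  induction P using Polynomial.induction_on with
  | C a => simpa using E2.const (n := n) a
  | add p q hp hq => simpa using hp.add hq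
  | monomial m a ih =>
    refine (ih.mul hf).congr ?_
    intro v
    simp only [Polynomial.eval_mul, Polynomial.eval_C, Polynomial.eval_pow, Polynomial.eval_X]
    ring

private theorem me_pre_iff {N : ℕ → ℕ} (hinj : Function.Injective N) (b v w : ℕ) :
    w = pre N b v ↔ (w < b ∧ N w = v) ∨ ((∀ u, u ≤ b → ¬ (u < b ∧ N u = v)) ∧ w = v) := by
  classical
  unfold pre
  by_cases h : ∃ u, u < b ∧ N u = v
  · rw [dif_pos h]
    have hs := Nat.find_spec h
    constructor
    · rintro rfl
      exact Or.inl hs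
    · rintro (h1 | h1)
      · exact hinj (h1.2.trans hs.2.symm)
      · exact absurd hs (h1.1 _ hs.1.le)
  · rw [dif_neg h]
    constructor
    · rintro rfl
      exact Or.inr ⟨fun u _ hu => h ⟨u, hu⟩, rfl⟩
    · rintro (h1 | h1)
      · exact absurd ⟨w, h1⟩ h
      · exact h1.2

private theorem me_pre_le (N : ℕ → ℕ) (b v : ℕ) : pre N b v < b ∨ pre N b v = v := by
  classical
  unfold pre
  by_cases h : ∃ u, u < b ∧ N u = v
  · rw [dif_pos h]
    exact Or.inl (Nat.find_spec h).1
  · rw [dif_neg h]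
    exact Or.inr rfl

private theorem me_pre2 {N : ℕ → ℕ} (hinj : Function.Injective N)
    (hNe : E2 1 (fun v => N (v 0))) : E2 2 (fun w => pre N (w 0) (w 1)) := by
  refine E2.ofGraph (b := fun w => w 0 + w 1) ((E2.proj 0).add (E2.proj 1)) (fun v => ?_) ?_
  · rcases me_pre_le N (v 0) (v 1) with h | h <;> omega
  · have h1 : E2Star 3 (fun w => ∀ u, u ≤ w 1 → ¬ (u < w 1 ∧ N u = w 2)) := by
      refine E2Star.ball (P := fun u w => ¬ (u < w 1 ∧ N u = w 2)) (E2.proj 1) ?_
      exact ((E2Star.ltFun (E2.proj 0) (E2.proj 2)).and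
        (E2Star.eqFun (E2.comp1 hNe (E2.proj 0)) (E2.proj 3))).not
    refine (((E2Star.ltFun (E2.proj 0) (E2.proj 1)).and
      (E2Star.eqFun (E2.comp1 hNe (E2.proj 0)) (E2.proj 2))).or
      (h1.and (E2Star.eqFun (E2.proj 0) (E2.proj 2)))).of_iff ?_
    intro w
    exact me_pre_iff hinj (w 1) (w 2) (w 0)

private theorem me_pre {N : ℕ → ℕ} (hinj : Function.Injective N)
    (hNe : E2 1 (fun v => N (v 0))) {n : ℕ} {b v : (Fin n → ℕ) → ℕ} (hb : E2 n b) (hv : E2 n v) :
    E2 n (fun w => pre N (b w) (v w)) := E2.comp2 (me_pre2 hinj hNe) hb hv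

private theorem me_iter_le {b v : ℕ} {f : ℕ → ℕ} (hf : ∀ x, f x < b ∨ f x = x) (t : ℕ) :
    f^[t] v ≤ b + v := by
  induction t with
  | zero => simp
  | succ t ih =>
    rw [Function.iterate_succ_apply']
    rcases hf (f^[t] v) with h | h <;> omega

private theorem me_start {N : ℕ → ℕ} (hinj : Function.Injective N)
    (hNe : E2 1 (fun v => N (v 0))) {n : ℕ} {b v : (Fin n → ℕ) → ℕ} (hb : E2 n b) (hv : E2 n v) :
    E2 n (fun w => start N (b w) (v w)) := by
  have h1 : E2 2 (fun w => start N (w 0) (w 1)) := by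
    have h2 := E2.iterate (n := 2) (P := fun x w => pre N (w 0) x) (S := fun w => w 1)
      (B := fun w => w 0 + w 1) (me_pre hinj hNe (E2.proj 1) (E2.proj 0)) (E2.proj 1)
      ((E2.proj 0).add (E2.proj 1)) (fun t w => me_iter_le (me_pre_le N (w 0)) t)
    exact E2.substFirst (F := fun t w => (fun x => pre N (w 0) x)^[t] (w 1)) h2 (E2.proj 0)
  exact E2.comp2 h1 hb hv

private theorem me_suc_le (N : ℕ → ℕ) (b v : ℕ) : suc N b v < b ∨ suc N b v = v := by
  unfold suc
  split_ifs with h
  · exact Or.inl h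
  · exact Or.inr rfl

private theorem me_fin {N : ℕ → ℕ}
    (hNe : E2 1 (fun v => N (v 0))) {n : ℕ} {b v : (Fin n → ℕ) → ℕ} (hb : E2 n b) (hv : E2 n v) :
    E2 n (fun w => fin N (b w) (v w)) := by
  have hs : E2 3 (fun w => suc N (w 1) (w 0)) := by
    unfold suc
    exact me_ite (E2Star.ltFun (E2.comp1 hNe (E2.proj 0)) (E2.proj 1))
      (E2.comp1 hNe (E2.proj 0)) (E2.proj 0)
  have h1 : E2 2 (fun w => fin N (w 0) (w 1)) := by
    have h2 := E2.iterate (n := 2) (P := fun x w => suc N (w 0) x) (S := fun w => w 1)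
      (B := fun w => w 0 + w 1) hs (E2.proj 1)
      ((E2.proj 0).add (E2.proj 1)) (fun t w => me_iter_le (me_suc_le N (w 0)) t)
    exact E2.substFirst (F := fun t w => (fun x => suc N (w 0) x)^[t] (w 1)) h2 (E2.proj 0)
  exact E2.comp2 h1 hb hv

private theorem me_rho {N : ℕ → ℕ} (hinj : Function.Injective N)
    (hNe : E2 1 (fun v => N (v 0))) {n : ℕ} {b v : (Fin n → ℕ) → ℕ} (hb : E2 n b) (hv : E2 n v) :
    E2 n (fun w => rho N (b w) (v w)) := by
  have hs := me_start hinj hNe hb hv
  unfold rho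
  exact me_ite (E2Star.eqFun (me_pre hinj hNe hb hs) hs) (hs.mod (E2.const 2)) (E2.const 0)

private theorem me_nu {N : ℕ → ℕ}
    (hNe : E2 1 (fun v => N (v 0))) {n : ℕ} {lo v : (Fin n → ℕ) → ℕ} (hlo : E2 n lo)
    (hv : E2 n v) : E2 n (fun w => nu N (lo w) (v w)) := by
  have hN := E2.comp1 hNe hv
  have hf := me_fin hNe hlo hN
  unfold nu
  exact me_ite (E2Star.leFun hlo hN) hN
    (me_ite (E2Star.eqFun (hf.mod (E2.const 2)) (hN.mod (E2.const 2))) hf (E2.comp1 hNe hf))

private theorem me_mu {N : ℕ → ℕ} (hinj : Function.Injective N)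
    (hNe : E2 1 (fun v => N (v 0))) {n : ℕ} {lo hi v : (Fin n → ℕ) → ℕ} (hlo : E2 n lo)
    (hhi : E2 n hi) (hv : E2 n v) : E2 n (fun w => mu N (lo w) (hi w) (v w)) := by
  have hs := me_start hinj hNe hlo hv
  have hp := me_pre hinj hNe hhi hv
  unfold mu
  exact me_ite (E2Star.ltFun hv hlo) (me_pre hinj hNe hhi hs)
    (me_ite (E2Star.leFun hlo hp) hp
      (me_ite (E2Star.eqFun (me_rho hinj hNe hlo hp) (hp.mod (E2.const 2))) hp
        (me_pre hinj hNe hhi (me_start hinj hNe hlo hp))))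

private theorem me_mm {N : ℕ → ℕ} (hinj : Function.Injective N)
    (hNe : E2 1 (fun v => N (v 0))) {n : ℕ} {lo hi v : (Fin n → ℕ) → ℕ} (hlo : E2 n lo)
    (hhi : E2 n hi) (hv : E2 n v) : E2 n (fun w => mm N (lo w) (hi w) (v w)) := by
  unfold mm
  exact me_ite (E2Star.eqFun (me_rho hinj hNe hhi hv) (hv.mod (E2.const 2)))
    (me_ite (E2Star.ltFun (E2.comp1 hNe hv) hhi) (me_nu hNe hlo hv) hv) (me_mu hinj hNe hlo hhi hv)

private theorem me_mono (P : Polynomial ℕ) {a b : ℕ} (h : a ≤ b) : P.eval a ≤ P.eval b := by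
  rw [Polynomial.eval_eq_sum, Polynomial.eval_eq_sum]
  exact Finset.sum_le_sum fun i _ => Nat.mul_le_mul_left _ (Nat.pow_le_pow_left h i)

private theorem me_hiv (P : Polynomial ℕ) (hP : ∀ b, b < P.eval b) :
    E2 1 (fun v => hiv (fun b => P.eval b) (v 0)) := by
  have hs : E2 2 (fun w => if w 0 ≤ w 1 then P.eval (w 0) else w 0) :=
    me_ite (E2Star.leFun (E2.proj 0) (E2.proj 1)) (me_poly P (E2.proj 0)) (E2.proj 0)
  have h2 := E2.iterate (n := 1) (P := fun b w => if b ≤ w 0 then P.eval b else b)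
    (S := fun _ => 1) (B := fun w => P.eval (w 0 + 1)) hs (E2.const 1)
    (me_poly P ((E2.proj 0).add (E2.const 1))) (by
      intro t w
      induction t with
      | zero =>
        have := hP (w 0 + 1)
        simp only [Function.iterate_zero, id_eq]
        omega
      | succ t ih =>
        rw [Function.iterate_succ_apply']
        split_ifs with h
        · exact me_mono P (h.trans (Nat.le_succ _))
        · exact ih)
  exact E2.substFirst (F := fun t w => (fun b => if b ≤ w 0 then P.eval b else b)^[t] 1) h2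
    ((E2.proj 0).add (E2.const 1))

private theorem me_lov (P : Polynomial ℕ) :
    E2 1 (fun v => lov (fun b => P.eval b) (v 0)) := by
  have hs : E2 2 (fun w => if P.eval (w 0) ≤ w 1 then P.eval (w 0) else w 0) :=
    me_ite (E2Star.leFun (me_poly P (E2.proj 0)) (E2.proj 1)) (me_poly P (E2.proj 0)) (E2.proj 0)
  have h2 := E2.iterate (n := 1) (P := fun b w => if P.eval b ≤ w 0 then P.eval b else b)
    (S := fun _ => 1) (B := fun w => w 0 + 1) hs (E2.const 1)
    ((E2.proj 0).add (E2.const 1)) (by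
      intro t w
      induction t with
      | zero => simp
      | succ t ih =>
        rw [Function.iterate_succ_apply']
        split_ifs with h
        · exact h.trans (Nat.le_succ _)
        · exact ih)
  have h3 := E2.substFirst (F := fun t w => (fun b => if P.eval b ≤ w 0 then P.eval b else b)^[t] 1)
    h2 (E2.proj 0)
  unfold lov
  exact me_ite (E2Star.leFun (E2.const 1) (E2.proj 0)) h3 (E2.const 0)

theorem MM_e2 {N : ℕ → ℕ} (hinj : Function.Injective N) (hN : DFun 1 (fun v => N (v 0)))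
    (P : Polynomial ℕ) (hP : ∀ b, b < P.eval b) :
    E2 1 (fun v => MM N (fun b => P.eval b) (v 0)) := by
  have hNe := hN.e2
  have hh := me_hiv P hP
  have hl := me_lov P
  unfold MM
  exact me_ite ((E2Star.leFun hh hNe).and
    (E2Star.eqFun (me_rho hinj hNe hh (E2.proj 0)) ((E2.proj 0).mod (E2.const 2))))
    (me_mm hinj hNe hh (me_poly P hh) (E2.proj 0)) (me_mm hinj hNe hl hh (E2.proj 0))

/-- The parity of the first point is in `E2Star`. -/
theorem rho_e2Star {N : ℕ → ℕ} (hinj : Function.Injective N) (hN : DFun 1 (fun v => N (v 0))) :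
    E2 2 (fun v => rho N (v 0) (v 1)) :=
  me_rho hinj hN.e2 (E2.proj 0) (E2.proj 1)

end Pool.Agent.CBM
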