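import Pool.Agent.CBM.Defs

/-!
CB1. Runs of an injection `N` without fixed points below a bound `b`.
-/

set_option autoImplicit false

namespace Pool.Agent.CBM

open Pool.Agent.Grz

variable {N : ℕ → ℕ} (hinj : Function.Injective N) (hpar : ∀ v, N v % 2 ≠ v % 2)
include hinj hpar

theorem pre_eq {b u : ℕ} (hu : u < b) : pre N b (N u) = u := by
  classical
  have h : ∃ w, w < b ∧ N w = N u := ⟨u, hu, rfl⟩
  unfold pre
  rw [dif_pos h]
  exact hinj (Nat.find_spec h).2

theorem pre_none {b v : ℕ} (hv : ∀ u, u < b → N u ≠ v) : pre N b v = v := by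
  classical
  unfold pre
  rw [dif_neg]
  rintro ⟨u, h1, h2⟩
  exact hv u h1 h2

theorem pre_fixed {b v : ℕ} (h : pre N b v = v) : ∀ u, u < b → N u ≠ v := by
  rintro u hu rfl
  rw [pre_eq hinj hpar hu] at h
  have := hpar u
  rw [← h] at this
  exact this rfl

theorem pre_lt {b v : ℕ} (hv : v < b) : pre N b v < b := by
  by_cases h : ∃ u, u < b ∧ N u = v
  · obtain ⟨u, hu, rfl⟩ := h
    rw [pre_eq hinj hpar hu]
    exact hu
  · push Not at h
    rw [pre_none hinj hpar h]
    exact hv

omit hinj hpar in
theorem rho_lt' (b v : ℕ) : rho N b v < 2 := by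
  unfold rho
  split_ifs
  · exact Nat.mod_lt _ (by norm_num)
  · norm_num

theorem rho_lt (b v : ℕ) : rho N b v < 2 := rho_lt' b v

private theorem iter_lt {b v : ℕ} (hv : v < b) (i : ℕ) : (pre N b)^[i] v < b := by
  induction i with
  | zero => exact hv
  | succ i ih =>
    rw [Function.iterate_succ_apply']
    exact pre_lt hinj hpar ih

/-- if the point is not fixed then it has a preimage -/
private theorem pre_ne {b v : ℕ} (h : pre N b v ≠ v) : N (pre N b v) = v ∧ pre N b v < b := by
  by_cases h' : ∃ u, u < b ∧ N u = v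
  · obtain ⟨u, hu, rfl⟩ := h'
    rw [pre_eq hinj hpar hu]
    exact ⟨rfl, hu⟩
  · push Not at h'
    exact absurd (pre_none hinj hpar h') h

omit hinj hpar in
private theorem iter_split (g : ℕ → ℕ) {t b : ℕ} (h : t ≤ b) (x : ℕ) :
    g^[b] x = g^[b - t] (g^[t] x) := by
  rw [← Function.iterate_add_apply, Nat.sub_add_cancel h]

omit hinj hpar in
private theorem fixed_later {b v m i : ℕ} (h : pre N b ((pre N b)^[m] v) = (pre N b)^[m] v)
    (hi : m ≤ i) : (pre N b)^[i] v = (pre N b)^[m] v := by
  obtain ⟨d, rfl⟩ := Nat.exists_eq_add_of_le hi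
  rw [Nat.add_comm, Function.iterate_add_apply]
  exact Function.iterate_fixed h d

/-- If no point up to time `b` is fixed, two of them agree. -/
private theorem pigeon {b : ℕ} {x : ℕ → ℕ} (hx : ∀ i, i ≤ b → x i < b) :
    ∃ i j, i < j ∧ j ≤ b ∧ x i = x j := by
  obtain ⟨i, hi, j, hj, hij, h⟩ := Finset.exists_ne_map_eq_of_card_lt_of_maps_to
    (s := Finset.range (b + 1)) (t := Finset.range b) (by simp) (f := x)
    (fun i hi => Finset.mem_coe.mpr (Finset.mem_range.mpr (hx i (by
      have := Finset.mem_range.mp (Finset.mem_coe.mp hi)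
      omega))))
  rw [Finset.mem_range] at hi hj
  rcases Nat.lt_or_gt_of_ne hij with h' | h'
  · exact ⟨i, j, h', by omega, h⟩
  · exact ⟨j, i, h', by omega, h.symm⟩

private theorem never_fixed {b v : ℕ} (hv : v < b)
    (h : pre N b ((pre N b)^[b] v) ≠ (pre N b)^[b] v) (m : ℕ) :
    pre N b ((pre N b)^[m] v) ≠ (pre N b)^[m] v := by
  intro hm
  rcases Nat.lt_or_ge b m with h1 | h1
  · obtain ⟨i, j, hij, hjb, he⟩ := pigeon hinj hpar (x := fun i => (pre N b)^[i] v)
      (fun i _ => iter_lt hinj hpar hv i)
    have hper : Function.IsPeriodicPt (pre N b) (j - i) ((pre N b)^[i] v) := by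
      unfold Function.IsPeriodicPt Function.IsFixedPt
      rw [← Function.iterate_add_apply, Nat.sub_add_cancel hij.le]
      exact he.symm
    have h2 := hper.mul_const m
    unfold Function.IsPeriodicPt Function.IsFixedPt at h2
    rw [← Function.iterate_add_apply] at h2
    have h3 : m ≤ (j - i) * m + i := by
      have : 1 ≤ j - i := by omega
      nlinarith
    rw [fixed_later hm h3] at h2
    have h4 : pre N b ((pre N b)^[i] v) = (pre N b)^[i] v := by
      rw [← h2]
      exact hm
    rw [fixed_later h4 (show i ≤ b by omega)] at h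
    exact h h4
  · rw [fixed_later hm h1] at h
    exact h hm

theorem rho_step {b u : ℕ} (hu : u < b) (hNu : N u < b) : rho N b (N u) = rho N b u := by
  have hs : start N b u = pre N b (start N b (N u)) := by
    unfold start
    rw [← Function.iterate_succ_apply' (pre N b) b (N u), Function.iterate_succ_apply,
      pre_eq hinj hpar hu]
  unfold rho
  by_cases h : pre N b (start N b (N u)) = start N b (N u)
  · rw [if_pos h, hs, h, if_pos h]
  · rw [if_neg h, if_neg]
    have h2 := never_fixed hinj hpar hNu (m := b + 1) h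
    rw [Function.iterate_succ_apply'] at h2
    rw [hs]
    exact h2

theorem rho_start {b v : ℕ} (hv : v < b) (h : ∀ u, u < b → N u ≠ v) :
    rho N b v = v % 2 ∧ start N b v = v := by
  have h1 : pre N b v = v := pre_none hinj hpar h
  have h2 : start N b v = v := Function.iterate_fixed h1 b
  refine ⟨?_, h2⟩
  unfold rho
  rw [h2, if_pos h1]

private theorem rho_run {b y t : ℕ} (h : ∀ i, i ≤ t → N^[i] y < b) :
    rho N b (N^[t] y) = rho N b y := by
  induction t with
  | zero => rfl
  | succ t ih =>
    rw [Function.iterate_succ_apply', rho_step hinj hpar (h t (by omega))]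
    · exact ih fun i hi => h i (by omega)
    · have := h (t + 1) le_rfl
      rwa [Function.iterate_succ_apply'] at this

private theorem pre_run {b y t : ℕ} (h : ∀ i, i ≤ t → N^[i] y < b) :
    (pre N b)^[t] (N^[t] y) = y := by
  induction t with
  | zero => rfl
  | succ t ih =>
    rw [Function.iterate_succ_apply, Function.iterate_succ_apply',
      pre_eq hinj hpar (h t (by omega))]
    exact ih fun i hi => h i (by omega)

/-- From the first point of a run to its last point. -/
theorem fin_spec {b y : ℕ} (hy : y < b) (h : ∀ u, u < b → N u ≠ y) :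
    fin N b y < b ∧ b ≤ N (fin N b y) ∧ rho N b (fin N b y) = y % 2 ∧
      start N b (fin N b y) = y ∧
      ∃ t, N^[t] y = fin N b y ∧ ∀ i, i ≤ t → N^[i] y < b := by
  -- the run leaves `[0,b)`
  have hex : ∃ t, t ≤ b ∧ b ≤ N (N^[t] y) := by
    by_contra hcon
    push Not at hcon
    have hlt : ∀ i, i ≤ b → N^[i] y < b := by
      intro i hi
      rcases i with _ | i
      · exact hy
      · rw [Function.iterate_succ_apply']
        exact hcon i (by omega)
    obtain ⟨i, j, hij, hjb, he⟩ := pigeon hinj hpar (x := fun i => N^[i] y) hlt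
    obtain ⟨d, rfl⟩ := Nat.exists_eq_add_of_lt hij
    have he' : N^[i] y = N^[i + (d + 1)] y := he
    rw [Function.iterate_add_apply] at he'
    have h2 := hinj.iterate i he'
    rw [Function.iterate_succ_apply'] at h2
    exact h _ (hlt d (by omega)) h2.symm
  classical
  obtain ⟨h1, h2⟩ := Nat.find_spec hex
  have h3 : ∀ i, i < Nat.find hex → N (N^[i] y) < b := by
    intro i hi
    have := Nat.find_min hex hi
    by_contra h'
    exact this ⟨by omega, by omega⟩
  set t := Nat.find hex with ht
  have hlt : ∀ i, i ≤ t → N^[i] y < b := by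
    intro i hi
    rcases i with _ | i
    · exact hy
    · rw [Function.iterate_succ_apply']
      exact h3 i (by omega)
  have hsuc : ∀ i, i ≤ t → (suc N b)^[i] y = N^[i] y := by
    intro i
    induction i with
    | zero => intro _; rfl
    | succ i ih =>
      intro hi
      rw [Function.iterate_succ_apply', ih (by omega), Function.iterate_succ_apply']
      unfold suc
      rw [if_pos (h3 i (by omega))]
  have hfin : fin N b y = N^[t] y := by
    unfold fin
    rw [iter_split _ h1, hsuc t le_rfl]
    refine Function.iterate_fixed ?_ _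
    unfold suc
    rw [if_neg (by omega)]
  rw [hfin]
  refine ⟨hlt t le_rfl, h2, ?_, ?_, t, rfl, hlt⟩
  · rw [rho_run hinj hpar hlt]
    exact (rho_start hinj hpar hy h).1
  · unfold start
    rw [iter_split _ h1, pre_run hinj hpar hlt]
    exact Function.iterate_fixed (pre_none hinj hpar h) _

/-- From the last point of a run to its first point. -/
theorem start_spec {b e : ℕ} (he : e < b) (h : b ≤ N e) :
    start N b e < b ∧ (∀ u, u < b → N u ≠ start N b e) ∧ fin N b (start N b e) = e ∧
      rho N b e = start N b e % 2 ∧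
      ∃ t, N^[t] (start N b e) = e ∧ ∀ i, i ≤ t → N^[i] (start N b e) < b := by
  -- the backward run is not a cycle
  have hfix : pre N b ((pre N b)^[b] e) = (pre N b)^[b] e := by
    by_contra hcon
    have hnf := never_fixed hinj hpar he hcon
    have hN : ∀ m, N^[m] ((pre N b)^[m] e) = e := by
      intro m
      induction m with
      | zero => rfl
      | succ m ih =>
        rw [Function.iterate_succ_apply, Function.iterate_succ_apply',
          (pre_ne hinj hpar (hnf m)).1]
        exact ih
    obtain ⟨i, j, hij, hjb, hee⟩ := pigeon hinj hpar (x := fun i => (pre N b)^[i] e)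
      (fun i _ => iter_lt hinj hpar he i)
    obtain ⟨d, rfl⟩ := Nat.exists_eq_add_of_lt hij
    replace hee : (pre N b)^[i] e = (pre N b)^[i + d + 1] e := hee
    -- `N^[d+1] e = e`
    have h1 : N^[d + 1] e = e := by
      have h2 := hN (i + d + 1)
      rw [← hee, show i + d + 1 = (d + 1) + i by omega, Function.iterate_add_apply, hN i] at h2
      exact h2
    have h2 : (pre N b)^[d + 1] e = e := by
      have h3 := hN (d + 1)
      conv_rhs at h3 => rw [← h1]
      exact hinj.iterate _ h3
    have h3 : N ((pre N b)^[d + 1] e) = (pre N b)^[d] e := by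
      rw [Function.iterate_succ_apply']
      exact (pre_ne hinj hpar (hnf d)).1
    rw [h2] at h3
    have h4 := iter_lt hinj hpar he d
    omega
  classical
  have hex : ∃ t, t ≤ b ∧ pre N b ((pre N b)^[t] e) = (pre N b)^[t] e := ⟨b, le_rfl, hfix⟩
  obtain ⟨h1, h2⟩ := Nat.find_spec hex
  have h3 : ∀ i, i < Nat.find hex → pre N b ((pre N b)^[i] e) ≠ (pre N b)^[i] e := by
    intro i hi h'
    exact Nat.find_min hex hi ⟨by omega, h'⟩
  set t := Nat.find hex with ht
  have hst : start N b e = (pre N b)^[t] e := fixed_later h2 h1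
  have hN : ∀ m i, m + i = t → N^[i] ((pre N b)^[t] e) = (pre N b)^[m] e := by
    intro m i
    induction i generalizing m with
    | zero =>
      intro hm
      rw [Nat.add_zero] at hm
      rw [hm]
      rfl
    | succ i ih =>
      intro hm
      rw [Function.iterate_succ_apply', ih (m + 1) (by omega), Function.iterate_succ_apply']
      exact (pre_ne hinj hpar (h3 m (by omega))).1
  have hrun : ∀ i, i ≤ t → N^[i] (start N b e) < b := by
    intro i hi
    rw [hst, hN (t - i) i (by omega)]
    exact iter_lt hinj hpar he _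
  have hend : N^[t] (start N b e) = e := by
    rw [hst, hN 0 t (by omega)]
    rfl
  have hs1 : start N b e < b := hrun 0 (Nat.zero_le _)
  have hs2 : ∀ u, u < b → N u ≠ start N b e := by
    refine pre_fixed hinj hpar ?_
    rw [hst]
    exact h2
  obtain ⟨f1, f2, _, _, t', f3, f4⟩ := fin_spec hinj hpar hs1 hs2
  have htt : t' = t := by
    rcases lt_trichotomy t' t with hlt | heq | hgt
    · have := hrun (t' + 1) (by omega)
      rw [Function.iterate_succ_apply', f3] at this
      omega
    · exact heq
    · have := f4 (t + 1) (by omega)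
      rw [Function.iterate_succ_apply', hend] at this
      omega
  refine ⟨hs1, hs2, ?_, ?_, t, hend, hrun⟩
  · rw [← f3, htt, hend]
  · have := rho_run hinj hpar hrun
    rw [hend] at this
    rw [this]
    exact (rho_start hinj hpar hs1 hs2).1

end Pool.Agent.CBM
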