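import Pool.Agent.CBM.Upper
import Pool.Agent.CBM.Root

/-!
The Cantor-Schroeder-Bernstein theorem from `Delta0 = E2Star`, and Banach's form from it.
-/

set_option autoImplicit false

namespace Pool.Agent.CBM

open Pool.Agent.Grz

/-- The chain of `v` starts at an odd number (on the right). -/
def OddStart (N : ℕ → ℕ) (v : ℕ) : Prop :=
  ∃ r n, (∀ u, N u ≠ r) ∧ N^[n] r = v ∧ r % 2 = 1

theorem oddStart_step {N : ℕ → ℕ} (hinj : Function.Injective N) (v : ℕ) :
    OddStart N (N v) ↔ OddStart N v := by
  constructor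
  · rintro ⟨r, n, h1, h2, h3⟩
    rcases n with _ | n
    · exact absurd h2.symm (h1 v)
    · rw [Function.iterate_succ_apply'] at h2
      exact ⟨r, n, h1, hinj h2, h3⟩
  · rintro ⟨r, n, h1, h2, h3⟩
    exact ⟨r, n + 1, h1, by rw [Function.iterate_succ_apply', h2], h3⟩

theorem half_mono {N : ℕ → ℕ} (hh : ∀ v, v / 2 ≤ N v / 2) (n w : ℕ) : w / 2 ≤ N^[n] w / 2 := by
  induction n with
  | zero => exact le_rfl
  | succ n ih =>
    rw [Function.iterate_succ_apply']
    exact ih.trans (hh _)

theorem oddStart_iff {N : ℕ → ℕ} (hinj : Function.Injective N) (hpar : ∀ v, N v % 2 ≠ v % 2)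
    (hh : ∀ v, v / 2 ≤ N v / 2) (v : ℕ) : OddStart N v ↔ rho N (v + 2) v = 1 := by
  constructor
  · rintro ⟨r, n, h1, h2, h3⟩
    have hb : ∀ i, i ≤ n → N^[i] r < v + 2 := by
      intro i hi
      have h4 := half_mono hh (n - i) (N^[i] r)
      rw [← Function.iterate_add_apply, Nat.sub_add_cancel hi, h2] at h4
      omega
    have hrun : ∀ i, i ≤ n → rho N (v + 2) (N^[i] r) = rho N (v + 2) r := by
      intro i
      induction i with
      | zero => intro _; rfl
      | succ i ih =>
        intro hi
        have h5 := hb (i + 1) hi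
        rw [Function.iterate_succ_apply'] at h5 ⊢
        rw [rho_step hinj hpar (hb i (by omega)) h5]
        exact ih (by omega)
    have h6 := hrun n le_rfl
    have h7 : rho N (v + 2) r = r % 2 :=
      (rho_start hinj hpar (show r < v + 2 from hb 0 (Nat.zero_le _)) (fun u _ => h1 u)).1
    rw [h2, h7, h3] at h6
    exact h6
  · intro h
    unfold rho at h
    split_ifs at h with h1
    have hback : ∀ i, ∃ m, N^[m] ((pre N (v + 2))^[i] v) = v := by
      intro i
      induction i with
      | zero => exact ⟨0, rfl⟩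
      | succ i ih =>
        obtain ⟨m, hm⟩ := ih
        rw [Function.iterate_succ_apply']
        by_cases h2 : ∃ u, u < v + 2 ∧ N u = (pre N (v + 2))^[i] v
        · obtain ⟨u, hu, hNu⟩ := h2
          refine ⟨m + 1, ?_⟩
          rw [← hNu, pre_eq hinj hpar hu, Function.iterate_succ_apply, hNu]
          exact hm
        · push Not at h2
          rw [pre_none hinj hpar h2]
          exact ⟨m, hm⟩
    obtain ⟨m, hm⟩ := hback (v + 2)
    refine ⟨start N (v + 2) v, m, ?_, hm, h⟩
    intro u hu
    have h3 : u < v + 2 := by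
      have h4 := half_mono hh (m + 1) u
      rw [Function.iterate_succ_apply, hu] at h4
      have : N^[m] (start N (v + 2) v) = v := hm
      rw [this] at h4
      omega
    exact pre_fixed hinj hpar h1 u h3 hu

/-- **Cantor-Schroeder-Bernstein** from `Delta0 = E2Star`. -/
theorem sb_of_eq (H : ∀ (k : ℕ) (R : (Fin k → ℕ) → Prop), E2Star k R → Delta0 k R)
    {f g : ℕ → ℕ} (hf : DInj f) (hg : DInj g) (hf' : ∀ x, x ≤ f x) (hg' : ∀ x, x ≤ g x) :
    ∃ h : ℕ ≃ ℕ, DFun 1 (fun v => h (v 0)) ∧ DFun 1 (fun v => h.symm (v 0)) ∧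
      ∀ x, h x = f x ∨ g (h x) = x := by
  classical
  have hinj := cb_inj hf.1 hg.1
  have hpar := cb_par f g
  have hN := cb_dfun hf.2 hg.2
  have hh : ∀ v, v / 2 ≤ cb f g v / 2 := by
    intro v
    unfold cb
    have h1 := hf' (v / 2)
    have h2 := hg' (v / 2)
    split_ifs <;> omega
  have hO : Delta0 1 (fun v => OddStart (cb f g) (v 0)) := by
    apply H
    have h3 : E2 1 (fun v => rho (cb f g) (v 0 + 2) (v 0)) :=
      E2.comp2 (rho_e2Star hinj hN) ((E2.proj 0).add (E2.const 2)) (E2.proj 0)
    refine (E2Star.eqFun h3 (E2.const 1)).of_iff fun v => ?_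
    exact oddStart_iff hinj hpar hh (v 0)
  -- existence of preimages
  have ex1 : ∀ a, OddStart (cb f g) (2 * a) → ∃ b, g b = a := by
    rintro a ⟨r, n, h1, h2, h3⟩
    rcases n with _ | n
    · simp only [Function.iterate_zero, id] at h2
      omega
    · rw [Function.iterate_succ_apply'] at h2
      unfold cb at h2
      split_ifs at h2 with h4
      · omega
      · exact ⟨_, Nat.eq_of_mul_eq_mul_left (by norm_num : 0 < 2) h2⟩
  have ex2 : ∀ b, ¬ OddStart (cb f g) (2 * b + 1) → ∃ a, f a = b := by
    intro b hb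
    by_contra hcon
    push Not at hcon
    apply hb
    refine ⟨2 * b + 1, 0, ?_, rfl, by omega⟩
    intro u hu
    unfold cb at hu
    split_ifs at hu with h4
    · exact hcon (u / 2) (by omega)
    · omega
  have s1 : ∀ a, OddStart (cb f g) (2 * f a + 1) ↔ OddStart (cb f g) (2 * a) := by
    intro a
    rw [← cb_even f g a]
    exact oddStart_step hinj _
  have s2 : ∀ b, OddStart (cb f g) (2 * g b) ↔ OddStart (cb f g) (2 * b + 1) := by
    intro b
    rw [← cb_odd f g b]
    exact oddStart_step hinj _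
  let hfun : ℕ → ℕ := fun a => if h : OddStart (cb f g) (2 * a) then (ex1 a h).choose else f a
  let hinv : ℕ → ℕ := fun b => if h : OddStart (cb f g) (2 * b + 1) then g b else (ex2 b h).choose
  have hfun1 : ∀ a, OddStart (cb f g) (2 * a) → g (hfun a) = a := by
    intro a h
    simp only [hfun, dif_pos h]
    exact (ex1 a h).choose_spec
  have hfun2 : ∀ a, ¬ OddStart (cb f g) (2 * a) → hfun a = f a := by
    intro a h
    simp only [hfun, dif_neg h]
  have hinv1 : ∀ b, OddStart (cb f g) (2 * b + 1) → hinv b = g b := by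
    intro b h
    simp only [hinv, dif_pos h]
  have hinv2 : ∀ b, ¬ OddStart (cb f g) (2 * b + 1) → f (hinv b) = b := by
    intro b h
    simp only [hinv, dif_neg h]
    exact (ex2 b h).choose_spec
  have left : ∀ a, hinv (hfun a) = a := by
    intro a
    by_cases h : OddStart (cb f g) (2 * a)
    · have h1 := hfun1 a h
      have h2 : OddStart (cb f g) (2 * hfun a + 1) := by
        rw [← s2, h1]
        exact h
      rw [hinv1 _ h2, h1]
    · rw [hfun2 a h]
      exact hf.1 (hinv2 (f a) (by rw [s1]; exact h))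
  have right : ∀ b, hfun (hinv b) = b := by
    intro b
    by_cases h : OddStart (cb f g) (2 * b + 1)
    · rw [hinv1 b h]
      exact hg.1 (hfun1 (g b) (by rw [s2]; exact h))
    · have h1 := hinv2 b h
      have h2 : ¬ OddStart (cb f g) (2 * hinv b) := by
        rw [← s1, h1]
        exact h
      rw [hfun2 _ h2, h1]
  have hE1 : ∀ {n : ℕ} {x : (Fin n → ℕ) → ℕ}, DFun n x →
      Delta0 n (fun v => OddStart (cb f g) (2 * x v)) := fun hx =>
    Delta0.comp1 (P := OddStart (cb f g)) hO ((DFun.const 2).mul hx)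
  have hE2 : ∀ {n : ℕ} {x : (Fin n → ℕ) → ℕ}, DFun n x →
      Delta0 n (fun v => OddStart (cb f g) (2 * x v + 1)) := fun hx =>
    Delta0.comp1 (P := OddStart (cb f g)) hO (((DFun.const 2).mul hx).add (DFun.const 1))
  have d1 : DFun 1 (fun v => hfun (v 0)) := by
    refine DFun.ofGraph (b := fun v => f (v 0) + v 0) (hf.2.add (DFun.proj 0)) ?_ ?_
    · intro v
      by_cases h : OddStart (cb f g) (2 * v 0)
      · have h1 := hfun1 _ h
        have h2 := hg' (hfun (v 0))
        omega
      · rw [hfun2 _ h]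
        omega
    · have hx : DFun 2 (fun w => w 1) := DFun.proj 1
      have hy : DFun 2 (fun w => w 0) := DFun.proj 0
      refine (((hE1 hx).and (Delta0.eqFun (DFun.comp1 hg.2 hy) hx)).or
        ((hE1 hx).not.and (Delta0.eqFun hy (DFun.comp1 hf.2 hx)))).of_iff ?_
      intro w
      show w 0 = hfun (w 1) ↔ _
      by_cases h : OddStart (cb f g) (2 * w 1)
      · constructor
        · intro e
          left
          exact ⟨h, by rw [e]; exact hfun1 _ h⟩
        · rintro (⟨_, e⟩ | ⟨e, _⟩)
          · exact hg.1 (e.trans (hfun1 _ h).symm)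
          · exact absurd h e
      · constructor
        · intro e
          right
          exact ⟨h, by rw [e]; exact hfun2 _ h⟩
        · rintro (⟨e, _⟩ | ⟨_, e⟩)
          · exact absurd e h
          · rw [e, hfun2 _ h]
  have d2 : DFun 1 (fun v => hinv (v 0)) := by
    refine DFun.ofGraph (b := fun v => g (v 0) + v 0) (hg.2.add (DFun.proj 0)) ?_ ?_
    · intro v
      by_cases h : OddStart (cb f g) (2 * v 0 + 1)
      · rw [hinv1 _ h]
        omega
      · have h1 := hinv2 _ h
        have h2 := hf' (hinv (v 0))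
        omega
    · have hx : DFun 2 (fun w => w 1) := DFun.proj 1
      have hy : DFun 2 (fun w => w 0) := DFun.proj 0
      refine (((hE2 hx).and (Delta0.eqFun hy (DFun.comp1 hg.2 hx))).or
        ((hE2 hx).not.and (Delta0.eqFun (DFun.comp1 hf.2 hy) hx))).of_iff ?_
      intro w
      show w 0 = hinv (w 1) ↔ _
      by_cases h : OddStart (cb f g) (2 * w 1 + 1)
      · constructor
        · intro e
          left
          exact ⟨h, by rw [e]; exact hinv1 _ h⟩
        · rintro (⟨_, e⟩ | ⟨e, _⟩)
          · rw [e, hinv1 _ h]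
          · exact absurd h e
      · constructor
        · intro e
          right
          exact ⟨h, by rw [e]; exact hinv2 _ h⟩
        · rintro (⟨e, _⟩ | ⟨_, e⟩)
          · exact absurd e h
          · exact hf.1 (e.trans (hinv2 _ h).symm)
  refine ⟨⟨hfun, hinv, left, right⟩, d1, d2, ?_⟩
  intro x
  show hfun x = f x ∨ g (hfun x) = x
  by_cases h : OddStart (cb f g) (2 * x)
  · exact Or.inr (hfun1 x h)
  · exact Or.inl (hfun2 x h)

/-- Banach's form from the form of Cantor, Schroeder and Bernstein. -/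
theorem banach_of_sb {f g : ℕ → ℕ} (hf : DInj f) (hf' : ∀ x, x < f x) (hg' : ∀ x, x < g x)
    (hsb : ∃ h : ℕ ≃ ℕ, DFun 1 (fun v => h (v 0)) ∧ DFun 1 (fun v => h.symm (v 0)) ∧
      ∀ x, h x = f x ∨ g (h x) = x) :
    ∃ C : ℕ → Prop, Delta0 1 (fun v => C (v 0)) ∧
      ∀ x, C x ↔ ¬ ∃ y, (¬ ∃ x', C x' ∧ f x' = y) ∧ g y = x := by
  obtain ⟨h, h1, _, h3⟩ := hsb
  refine ⟨fun x => h x = f x, Delta0.eqFun h1 hf.2, ?_⟩
  intro x
  constructor
  · rintro hx ⟨y, hy, rfl⟩
    have h4 : h (g y) = f (g y) := hx
    obtain ⟨x', rfl⟩ := h.surjective y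
    rcases h3 x' with h5 | h5
    · exact hy ⟨x', h5, h5.symm⟩
    · rw [h5] at h4
      have h6 := hg' (h x')
      have h7 := hf' x'
      omega
  · intro hx
    by_contra hcon
    have h4 : g (h x) = x := by
      rcases h3 x with h5 | h5
      · exact absurd h5 hcon
      · exact h5
    apply hx
    refine ⟨h x, ?_, h4⟩
    rintro ⟨x', h5, h6⟩
    have : x' = x := h.injective (h5.trans h6)
    rw [this] at h5
    exact hcon h5

end Pool.Agent.CBM
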