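import Pool.Agent.CBM.Run

/-!
CB2. One stage of the matching. `N` is an injection that changes the parity, `lo ≤ hi` and `N` maps
`[0,lo)` into `[0,hi)`. The points of `[0,lo)` have been matched in pairs, except the last points `v`
of the runs below `lo` that have an odd number of points (`lo ≤ N v`, `rho lo v = v % 2`). `inU`: the
points below `hi` that are not matched yet. `nu`: the next point of `inU` on the run below `hi`,
`mu`: the one before. `mm` matches neighbours in `inU`, starting from the first point of each run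
below `hi`; only the last point of a run with an odd number of points is left.

PROOF SKETCH. Write `V = [0,hi)`, `U = {v | inU lo hi v}`.
(1) For `v ∈ U` with `N v < hi`: if `lo ≤ N v` then `nu v = N v ∈ U`. If `N v < lo` then `lo ≤ v`
(a point of `U` below `lo` has `lo ≤ N v`), so `y = N v` has no preimage below `lo` (injectivity) and
`fin_spec` (for `b = lo`) applies: `e = fin lo y`, `e < lo ≤ N e`, `rho lo e = y % 2`,
`start lo e = y`. If `e % 2 = y % 2` then `e ∈ U` and `nu v = e`; if not, `N e ∈ U` (`N e < hi` by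
hypothesis) and `nu v = N e`. In all cases `nu v ∈ U`, `nu v` has the other parity than `v`,
`rho hi (nu v) = rho hi v` (`rho_step` along the run: all points `N^[i] v` up to `nu v` are below `hi`;
first prove: if `N^[i] y < b` for all `i ≤ t` then `rho b (N^[t] y) = rho b y`; the points of the run
below `lo` are `< lo ≤ hi`), and `N^[t] v = nu v` for some `t`.
(2) For `w ∈ U` with `rho hi w ≠ w % 2`: `w` is not the first point of its run below `hi` (`rho_start`).
If `w < lo` then (`lo ≤ N w`) `s = start lo w` has no preimage below `lo` and `s % 2 = rho lo w =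
w % 2`; `s` has a preimage `u < hi` (otherwise `rho hi w = s % 2 = w % 2`), so `lo ≤ u`, `mu w = u`
and `nu u = w`. If `lo ≤ w`: `p = pre hi w < hi`, `N p = w`; if `lo ≤ p`: `mu w = p`, `nu p = w`;
if `p < lo` and `rho lo p = p % 2`: `p ∈ U`, `mu w = p`, `nu p = N p = w`; else `s = start lo p` has
a preimage `u < hi` (otherwise `rho hi w = s % 2 = rho lo p ≠ p % 2`, so `rho hi w = w % 2`),
`lo ≤ u`, `mu w = u`, `nu u = N (fin lo s) = N p = w`. In all cases `mu w ∈ U` and `nu (mu w) = w`,
`N (mu w) < hi`, `rho hi (mu w) = rho hi w`.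
(3) So if `rho hi v = v % 2` and `N v < hi` then `w = nu v` has `rho hi w = rho hi v = v % 2 ≠ w % 2`,
`mm w = mu w = v`; if `rho hi w ≠ w % 2` then `v = mu w` has `v % 2 ≠ w % 2`, so (values `< 2`)
`rho hi v = rho hi w = v % 2`, `mm v = nu v = w`. `mm v = v` only if `hi ≤ N v` and
`rho hi v = v % 2`.
-/

set_option autoImplicit false

namespace Pool.Agent.CBM

open Pool.Agent.Grz

/-- The points below `hi` that are not matched below `lo`. -/
def inU (N : ℕ → ℕ) (lo hi v : ℕ) : Prop :=
  v < hi ∧ (lo ≤ v ∨ (lo ≤ N v ∧ rho N lo v = v % 2))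

/-- The next unmatched point. -/
noncomputable def nu (N : ℕ → ℕ) (lo v : ℕ) : ℕ :=
  if lo ≤ N v then N v else
    if fin N lo (N v) % 2 = N v % 2 then fin N lo (N v) else N (fin N lo (N v))

/-- The unmatched point before `v`. -/
noncomputable def mu (N : ℕ → ℕ) (lo hi v : ℕ) : ℕ :=
  if v < lo then pre N hi (start N lo v) else
    if lo ≤ pre N hi v then pre N hi v else
      if rho N lo (pre N hi v) = pre N hi v % 2 then pre N hi v else
        pre N hi (start N lo (pre N hi v))

/-- The partner of `v`, or `v` itself if it is the last point of an odd run. -/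
noncomputable def mm (N : ℕ → ℕ) (lo hi v : ℕ) : ℕ :=
  if rho N hi v = v % 2 then (if N v < hi then nu N lo v else v) else mu N lo hi v

section

variable {N : ℕ → ℕ} (hinj : Function.Injective N) (hpar : ∀ v, N v % 2 ≠ v % 2)
include hinj hpar

private theorem rho_run {b y t : ℕ} (h : ∀ i, i ≤ t → N^[i] y < b) :
    rho N b (N^[t] y) = rho N b y := by
  induction t with
  | zero => rfl
  | succ t ih =>
    rw [Function.iterate_succ_apply', rho_step hinj hpar (h t (by omega))]
    · exact ih fun i hi => h i (by omega)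
    · have := h (t + 1) le_rfl
      rwa [Function.iterate_succ_apply'] at this

private theorem next_spec {lo hi : ℕ} (hle : lo ≤ hi) (hlo : ∀ v, v < lo → N v < hi) {v : ℕ}
    (hv : inU N lo hi v) (hN : N v < hi) :
    inU N lo hi (nu N lo v) ∧ nu N lo v % 2 ≠ v % 2 ∧ rho N hi (nu N lo v) = rho N hi v ∧
      mu N lo hi (nu N lo v) = v ∧ ∃ t, N^[t] v = nu N lo v := by
  obtain ⟨hv1, hv2⟩ := hv
  by_cases h1 : lo ≤ N v
  · have e : nu N lo v = N v := by
      unfold nu
      rw [if_pos h1]
    rw [e]
    refine ⟨⟨hN, Or.inl h1⟩, hpar v, rho_step hinj hpar hv1 hN, ?_, 1, rfl⟩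
    unfold mu
    rw [if_neg (by omega), pre_eq hinj hpar hv1]
    rcases hv2 with h2 | ⟨_, h2⟩
    · rw [if_pos h2]
    · split_ifs <;> rfl
  · have h2 : lo ≤ v := by
      rcases hv2 with h2 | ⟨h2, _⟩
      · exact h2
      · exact absurd h2 h1
    have h3 : N v < lo := by omega
    have h4 : ∀ u, u < lo → N u ≠ N v := by
      intro u hu he
      have := hinj he
      omega
    obtain ⟨f1, f2, f3, f4, t, f5, f6⟩ := fin_spec hinj hpar h3 h4
    have hp := hpar v
    have hr : rho N hi (fin N lo (N v)) = rho N hi v := by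
      rw [← f5, rho_run hinj hpar (fun i hi' => lt_of_lt_of_le (f6 i hi') hle)]
      exact rho_step hinj hpar hv1 hN
    by_cases h5 : fin N lo (N v) % 2 = N v % 2
    · have e : nu N lo v = fin N lo (N v) := by
        unfold nu
        rw [if_neg h1, if_pos h5]
      rw [e]
      refine ⟨⟨lt_of_lt_of_le f1 hle, Or.inr ⟨f2, by rw [f3, h5]⟩⟩, by omega, hr, ?_, t + 1, ?_⟩
      · unfold mu
        rw [if_pos f1, f4, pre_eq hinj hpar hv1]
      · rw [Function.iterate_succ_apply, f5]
    · have e : nu N lo v = N (fin N lo (N v)) := by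
        unfold nu
        rw [if_neg h1, if_neg h5]
      have hfi : fin N lo (N v) < hi := lt_of_lt_of_le f1 hle
      have hNf : N (fin N lo (N v)) < hi := hlo _ f1
      have hp2 := hpar (fin N lo (N v))
      rw [e]
      refine ⟨⟨hNf, Or.inl f2⟩, by omega, ?_, ?_, t + 2, ?_⟩
      · rw [rho_step hinj hpar hfi hNf, hr]
      · unfold mu
        rw [if_neg (by omega), pre_eq hinj hpar hfi, if_neg (by omega), if_neg, f4,
          pre_eq hinj hpar hv1]
        rw [f3]
        exact fun h => h5 h.symm
      · rw [Function.iterate_succ_apply, Function.iterate_succ_apply', f5]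

private theorem prev_spec {lo hi : ℕ} (hle : lo ≤ hi) (hlo : ∀ v, v < lo → N v < hi) {w : ℕ}
    (hw : inU N lo hi w) (hr : rho N hi w ≠ w % 2) :
    inU N lo hi (mu N lo hi w) ∧ N (mu N lo hi w) < hi ∧ nu N lo (mu N lo hi w) = w := by
  obtain ⟨hw1, hw2⟩ := hw
  have hp := hpar w
  by_cases h1 : w < lo
  · have h2 : lo ≤ N w ∧ rho N lo w = w % 2 := by
      rcases hw2 with h2 | h2
      · omega
      · exact h2
    obtain ⟨s1, s2, s3, s4, t, s5, s6⟩ := start_spec hinj hpar h1 h2.1
    have hshi : start N lo w < hi := lt_of_lt_of_le s1 hle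
    have hrw : rho N hi w = rho N hi (start N lo w) := by
      conv_lhs => rw [← s5]
      exact rho_run hinj hpar (fun i hi' => lt_of_lt_of_le (s6 i hi') hle)
    have hex : ∃ u, u < hi ∧ N u = start N lo w := by
      by_contra hcon
      push Not at hcon
      have := (rho_start hinj hpar hshi hcon).1
      rw [hrw, this, ← s4, h2.2] at hr
      exact hr rfl
    obtain ⟨u, hu, hNu⟩ := hex
    have hlu : lo ≤ u := by
      by_contra h
      exact s2 u (by omega) hNu
    have e : mu N lo hi w = u := by
      unfold mu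
      rw [if_pos h1, ← hNu, pre_eq hinj hpar hu]
    rw [e]
    refine ⟨⟨hu, Or.inl hlu⟩, by rw [hNu]; exact hshi, ?_⟩
    unfold nu
    rw [hNu, if_neg (by omega), s3, if_pos]
    rw [← h2.2, s4]
  · -- the preimage of `w`
    have hex : ∃ p, p < hi ∧ N p = w := by
      by_contra hcon
      push Not at hcon
      exact hr (rho_start hinj hpar hw1 hcon).1
    obtain ⟨p, hp1, rfl⟩ := hex
    have hpp := hpar p
    by_cases h2 : lo ≤ p
    · have e : mu N lo hi (N p) = p := by
        unfold mu
        rw [if_neg h1, pre_eq hinj hpar hp1, if_pos h2]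
      rw [e]
      refine ⟨⟨hp1, Or.inl h2⟩, hw1, ?_⟩
      unfold nu
      rw [if_pos (by omega)]
    · by_cases h3 : rho N lo p = p % 2
      · have e : mu N lo hi (N p) = p := by
          unfold mu
          rw [if_neg h1, pre_eq hinj hpar hp1, if_neg h2, if_pos h3]
        rw [e]
        refine ⟨⟨hp1, Or.inr ⟨by omega, h3⟩⟩, hw1, ?_⟩
        unfold nu
        rw [if_pos (by omega)]
      · obtain ⟨s1, s2, s3, s4, t, s5, s6⟩ := start_spec hinj hpar (show p < lo by omega)
          (show lo ≤ N p by omega)
        have hshi : start N lo p < hi := lt_of_lt_of_le s1 hle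
        have hrw : rho N hi p = rho N hi (start N lo p) := by
          conv_lhs => rw [← s5]
          exact rho_run hinj hpar (fun i hi' => lt_of_lt_of_le (s6 i hi') hle)
        have hrw2 : rho N hi (N p) = rho N hi p := rho_step hinj hpar hp1 hw1
        have hex : ∃ u, u < hi ∧ N u = start N lo p := by
          by_contra hcon
          push Not at hcon
          have h5 := (rho_start hinj hpar hshi hcon).1
          omega
        obtain ⟨u, hu, hNu⟩ := hex
        have hlu : lo ≤ u := by
          by_contra h
          exact s2 u (by omega) hNu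
        have e : mu N lo hi (N p) = u := by
          unfold mu
          rw [if_neg h1, pre_eq hinj hpar hp1, if_neg h2, if_neg h3, ← hNu,
            pre_eq hinj hpar hu]
        rw [e]
        refine ⟨⟨hu, Or.inl hlu⟩, by rw [hNu]; exact hshi, ?_⟩
        unfold nu
        rw [hNu, if_neg (by omega), s3, if_neg]
        omega

theorem mm_spec {lo hi : ℕ} (hle : lo ≤ hi) (hlo : ∀ v, v < lo → N v < hi) {v : ℕ}
    (hv : inU N lo hi v) :
    inU N lo hi (mm N lo hi v) ∧ mm N lo hi (mm N lo hi v) = v ∧
      (mm N lo hi v = v ↔ (hi ≤ N v ∧ rho N hi v = v % 2)) ∧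
      (mm N lo hi v ≠ v → mm N lo hi v % 2 ≠ v % 2) ∧
      ∃ s t, N^[s] (mm N lo hi v) = N^[t] v := by
  by_cases h1 : rho N hi v = v % 2
  · by_cases h2 : N v < hi
    · have e : mm N lo hi v = nu N lo v := by
        unfold mm
        rw [if_pos h1, if_pos h2]
      obtain ⟨n1, n2, n3, n4, t, n5⟩ := next_spec hinj hpar hle hlo hv h2
      rw [e]
      refine ⟨n1, ?_, ?_, fun _ => n2, 0, t, n5.symm⟩
      · unfold mm
        rw [if_neg, n4]
        rw [n3, h1]
        exact fun h => n2 h.symm
      · constructor
        · intro h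
          rw [h] at n2
          exact absurd rfl n2
        · intro h
          omega
    · have e : mm N lo hi v = v := by
        unfold mm
        rw [if_pos h1, if_neg h2]
      rw [e]
      exact ⟨hv, e, ⟨fun _ => ⟨by omega, h1⟩, fun _ => rfl⟩, fun h => absurd rfl h, 0, 0, rfl⟩
  · have e : mm N lo hi v = mu N lo hi v := by
      unfold mm
      rw [if_neg h1]
    obtain ⟨p1, p2, p3⟩ := prev_spec hinj hpar hle hlo hv h1
    obtain ⟨n1, n2, n3, n4, t, n5⟩ := next_spec hinj hpar hle hlo p1 p2
    rw [p3] at n2 n3 n5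
    have r1 := rho_lt hinj hpar hi v
    have r2 := rho_lt hinj hpar hi (mu N lo hi v)
    rw [e]
    refine ⟨p1, ?_, ?_, fun _ => fun h => n2 h.symm, t, 0, n5⟩
    · unfold mm
      rw [if_pos (by omega), if_pos p2, p3]
    · constructor
      · intro h
        rw [h] at n2
        exact absurd rfl n2
      · intro h
        exact absurd h.2 h1

end

end Pool.Agent.CBM
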